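import Pool.Agent.helper60.RF.SpecB

set_option autoImplicit false

namespace Pool.Agent.RF

open NumberField

theorem DEL_prime (F : Type) [Field F] [NumberField F] (P : Ideal (𝓞 F)) (hP : P.IsPrime) (hP0 : P ≠ ⊥) :
    ∃ l : ℕ, l.Prime ∧ (l : 𝓞 F) ∈ P := by
  have key : ∀ n : ℕ, n ≠ 0 → (n : 𝓞 F) ∈ P → ∃ l : ℕ, l.Prime ∧ (l : 𝓞 F) ∈ P := by
    intro n
    induction n using Nat.strong_induction_on with
    | _ n ih =>
      intro hn hnP
      by_cases h1 : n = 1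
      · exfalso
        subst h1
        apply hP.ne_top
        rw [Ideal.eq_top_iff_one]
        simpa using hnP
      · have hm := Nat.minFac_prime h1
        obtain ⟨k, hk⟩ := Nat.minFac_dvd n
        have hk0 : k ≠ 0 := by
          rintro rfl
          simp at hk
          exact hn hk
        have : ((n.minFac : ℕ) : 𝓞 F) * (k : 𝓞 F) ∈ P := by
          rw [← Nat.cast_mul, ← hk]
          exact hnP
        rcases hP.mem_or_mem this with h | h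
        · exact ⟨_, hm, h⟩
        · have hlt : k < n := by
            conv_rhs => rw [hk]
            have := hm.two_le
            nlinarith [Nat.pos_of_ne_zero hk0]
          exact ih k hlt hk0 h
  refine key (Ideal.absNorm P) ?_ (Ideal.absNorm_mem P)
  exact fun h => hP0 (Ideal.absNorm_eq_zero_iff.1 h)

theorem DEL_pow (h3 : VVM_stmt) (F : Type) [Field F] [NumberField F] (P : Ideal (𝓞 F)) (hP : P.IsPrime) (hP0 : P ≠ ⊥)
    (x : 𝓞 F) (hx : x ≠ 0) (n : ℕ) : vv P (x ^ n) = n * vv P x := by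
  induction n with
  | zero =>
    have h1 := (h3 F P hP hP0).1 1 1 one_ne_zero one_ne_zero
    rw [mul_one] at h1
    rw [pow_zero]
    omega
  | succ n ih =>
    rw [pow_succ, (h3 F P hP hP0).1 _ _ (pow_ne_zero _ hx) hx, ih]
    ring

theorem DEL_ct (p : Pt) (l : ℕ) (h : (l : OO) ∣ p.n) : l ∣ ct p := by
  obtain ⟨c, hc⟩ := h
  have h1 : p.n.re = l * c.re := by rw [hc]; simp
  have h2 : p.n.im = l * c.im := by rw [hc]; simp
  unfold ct
  rw [h1, h2, Int.gcd_mul_left, Int.natAbs_natCast]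
  exact dvd_mul_right _ _

theorem DEL_ct2 (p : Pt) : ((ct p : ℕ) : OO) ∣ p.n := by
  have h1 : ((ct p : ℕ) : ℤ) ∣ p.n.re := Int.gcd_dvd_left _ _
  have h2 : ((ct p : ℕ) : ℤ) ∣ p.n.im := Int.gcd_dvd_right _ _
  obtain ⟨a, ha⟩ := h1
  obtain ⟨b, hb⟩ := h2
  refine ⟨⟨a, b⟩, ?_⟩
  apply QuadraticAlgebra.ext
  · simp [ha]
  · simp [hb]

theorem DEL (h1 : TID_stmt) (h2 : LOC_stmt) (h3 : VVM_stmt) (h4 : VV5_stmt) (h5 : GDV_stmt) : DEL_stmt := by
  intro D₀ F _ _ C p q f hsq hp hq hpD hqD hct hT hE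
  obtain ⟨a1, a2, a3, a4, a5⟩ := h1 D₀ F C p f hp hpD
  obtain ⟨b1, b2, b3, b4, b5⟩ := h1 D₀ F C q f hq hqD
  obtain ⟨c1, c2, c3, c4⟩ := h5 p hp D₀ f hsq hpD
  set g : ℕ := ct p with hg
  set θ := th C f p with hθ
  set η := th C f q with hη
  have s0 : ∀ x : 𝓞 F, x ≠ 0 → C.σ x ≠ 0 := by
    intro x hx h
    exact hx (by simpa using h)
  rw [map_mul, map_pow] at a1 b1
  set n := C.ι p.n with hn
  set n' := C.ι (star p.n) with hn'
  set m := C.ι q.n with hm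
  set m' := C.ι (star q.n) with hm'
  have sn : C.σ n = n' := C.σι _
  have sn' : C.σ n' = n := by rw [hn', C.σι, star_star]
  have sm : C.σ m = m' := C.σι _
  have sm' : C.σ m' = m := by rw [hm', C.σι, star_star]
  have n0 : n ≠ 0 := by
    intro h
    rw [h] at a1
    have : θ * C.σ (C.σ θ) ≠ 0 := mul_ne_zero a4 (s0 _ (s0 _ a4))
    apply this
    rw [a1]
    ring
  have n0' : n' ≠ 0 := by rw [← sn]; exact s0 _ n0
  have m0 : m ≠ 0 := by
    intro h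
    rw [h] at b1
    have : η * C.σ (C.σ η) ≠ 0 := mul_ne_zero b4 (s0 _ (s0 _ b4))
    apply this
    rw [b1]
    ring
  have m0' : m' ≠ 0 := by rw [← sm]; exact s0 _ m0
  have g0 : (g : 𝓞 F) ≠ 0 := by
    have : g ≠ 0 := by omega
    exact_mod_cast this
  -- conjugate identities
  have a1' : C.σ θ * C.σ (C.σ (C.σ θ)) = n' ^ 2 * n := by
    have := congrArg C.σ a1
    rw [map_mul, map_mul, map_pow, sn, sn'] at this
    exact this
  have b1' : C.σ η * C.σ (C.σ (C.σ η)) = m' ^ 2 * m := by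
    have := congrArg C.σ b1
    rw [map_mul, map_mul, map_pow, sm, sm'] at this
    exact this
  -- the elements
  set Θ := C.σ (C.σ θ) * η with hΘ
  have sΘ : C.σ Θ = C.σ (C.σ (C.σ θ)) * C.σ η := by rw [hΘ, map_mul]
  have Θ0 : Θ ≠ 0 := mul_ne_zero (s0 _ (s0 _ a4)) b4
  have nm : C.ι (star p.n * star q.n) = n' * m' := by rw [map_mul]
  have hdvd : (g : 𝓞 F) ^ 5 * (n' * m') ^ 2 ∣ Θ ^ 2 * C.σ Θ := by
    apply (h4 F).1
    · exact mul_ne_zero (pow_ne_zero _ g0) (pow_ne_zero _ (mul_ne_zero n0' m0'))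
    · exact mul_ne_zero (pow_ne_zero _ Θ0) (s0 _ Θ0)
    · intro P hP hP0
      have V := (h3 F P hP hP0).1
      have V2 := DEL_pow h3 F P hP hP0
      have e1 : vv P ((g : 𝓞 F) ^ 5 * (n' * m') ^ 2) = 5 * vv P (g : 𝓞 F) + 2 * (vv P n' + vv P m') := by
        rw [V _ _ (pow_ne_zero _ g0) (pow_ne_zero _ (mul_ne_zero n0' m0')), V2 _ g0,
          V2 _ (mul_ne_zero n0' m0'), V _ _ n0' m0']
      have e2 : vv P (Θ ^ 2 * C.σ Θ) = 2 * (vv P (C.σ (C.σ θ)) + vv P η) +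
          (vv P (C.σ (C.σ (C.σ θ))) + vv P (C.σ η)) := by
        rw [V _ _ (pow_ne_zero _ Θ0) (s0 _ Θ0), V2 _ Θ0, sΘ, hΘ, V _ _ (s0 _ (s0 _ a4)) b4,
          V _ _ (s0 _ (s0 _ (s0 _ a4))) (s0 _ b4)]
      rw [e1, e2]
      by_cases hgP : (g : 𝓞 F) ∈ P
      · have t0 := hT P hP hgP 0
        have t1 := hT P hP hgP 1
        have t2 := hT P hP hgP 2
        have t3 := hT P hP hgP 3
        simp only [Function.iterate_zero, id, Function.iterate_succ, Function.comp] at t0 t1 t2 t3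
        rw [C.σι, C.σι] at t1
        change vv P θ = vv P η ∧ vv P n = vv P m at t0
        change vv P (C.σ θ) = vv P (C.σ η) ∧ vv P n' = vv P m' at t1
        have r1 : vv P θ + vv P (C.σ (C.σ θ)) = 2 * vv P n + vv P n' := by
          rw [← V _ _ a4 (s0 _ (s0 _ a4)), a1, V _ _ (pow_ne_zero _ n0) n0', V2 _ n0]
        have r2 : vv P (C.σ θ) + vv P (C.σ (C.σ (C.σ θ))) = 2 * vv P n' + vv P n := by
          rw [← V _ _ (s0 _ a4) (s0 _ (s0 _ (s0 _ a4))), a1', V _ _ (pow_ne_zero _ n0') n0, V2 _ n0']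
        have r3 : vv P (g : 𝓞 F) ≤ vv P n := by
          apply (h3 F P hP hP0).2.2 _ _ n0
          have := map_dvd C.ι c3
          rw [map_natCast] at this
          exact this
        omega
      · obtain ⟨l, hl, hlP⟩ := DEL_prime F P hP hP0
        have hlg : ¬ l ∣ g := by
          intro hh
          obtain ⟨c, hc⟩ := hh
          apply hgP
          rw [hc, Nat.cast_mul]
          exact P.mul_mem_right _ hlP
        have hlp : ¬ (l : OO) ∣ p.n := fun hh => hlg (DEL_ct p l hh)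
        have hlq : ¬ (l : OO) ∣ q.n := fun hh => hlg (by rw [hct]; exact DEL_ct q l hh)
        obtain ⟨u0, u1, u2, u3, w1, w2, w3, w4, w5, w6⟩ := h2 D₀ F C p f hp hpD l P hl hP hlP hP0 hlp
        obtain ⟨v0, v1, v2, v3, x1, x2, x3, x4, x5, x6⟩ := h2 D₀ F C q f hq hqD l P hl hP hlP hP0 hlq
        have r4 : vv P (g : 𝓞 F) = 0 := by
          by_contra hne
          exact hgP (((h3 F P hP hP0).2.1 _ g0).1 (Nat.pos_of_ne_zero hne))
        rw [← hθ] at w3 w4 w5 w6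
        rw [← hη] at x3 x4 x5 x6
        rw [← hn'] at w2
        rw [← hm'] at x2
        omega
  obtain ⟨y, hy⟩ := hdvd
  -- the fifth root
  obtain ⟨γ, hγ⟩ := hE
  have inj : Function.Injective (algebraMap (𝓞 F) F) := RingOfIntegers.coe_injective
  have cs : ∀ x : 𝓞 F, x ≠ 0 → (x : F) ≠ 0 := by
    intro x hx h
    exact hx (by simpa using h)
  have eqF1 : (θ : F) * (C.σ (C.σ θ) : 𝓞 F) = (n : F) ^ 2 * n' := by exact_mod_cast congrArg (algebraMap (𝓞 F) F) a1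
  have eqF2 : (C.σ θ : F) * (C.σ (C.σ (C.σ θ)) : 𝓞 F) = (n' : F) ^ 2 * n := by exact_mod_cast congrArg (algebraMap (𝓞 F) F) a1'
  have bp : be C f p = θ ^ 2 * C.σ θ * n' ^ 3 := rfl
  have bq : be C f q = η ^ 2 * C.σ η * m' ^ 3 := rfl
  rw [bp, bq] at hγ
  have γ0 : γ ≠ 0 := by
    intro h
    rw [h] at hγ
    have : ((θ ^ 2 * C.σ θ * n' ^ 3 : 𝓞 F) : F) ≠ 0 :=
      cs _ (mul_ne_zero (mul_ne_zero (pow_ne_zero _ a4) (s0 _ a4)) (pow_ne_zero _ n0'))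
    apply this
    rw [hγ]
    ring
  have hyF : (Θ : F) ^ 2 * (C.σ Θ : 𝓞 F) = (g : F) ^ 5 * (n' * m') ^ 2 * y := by
    exact_mod_cast congrArg (algebraMap (𝓞 F) F) hy
  set δ : F := (n : F) * n' / ((m' : F) * γ * g) with hδ
  have gF : (g : F) ≠ 0 := by
    have : g ≠ 0 := by omega
    exact_mod_cast this
  have hδ5 : δ ^ 5 = (y : F) := by
    have k1 : (n : F) ≠ 0 := cs _ n0
    have k2 : (n' : F) ≠ 0 := cs _ n0'
    have k3 : (m : F) ≠ 0 := cs _ m0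
    have k4 : (m' : F) ≠ 0 := cs _ m0'
    have k5 : (θ : F) ≠ 0 := cs _ a4
    have k6 : ((C.σ θ : 𝓞 F) : F) ≠ 0 := cs _ (s0 _ a4)
    have hγ' : (θ : F) ^ 2 * (C.σ θ : 𝓞 F) * (n' : F) ^ 3 = (η : F) ^ 2 * (C.σ η : 𝓞 F) * (m' : F) ^ 3 * γ ^ 5 := by
      exact_mod_cast hγ
    have hΘF : (Θ : F) = (C.σ (C.σ θ) : 𝓞 F) * (η : F) := by
      exact_mod_cast congrArg (algebraMap (𝓞 F) F) hΘ
    have hsΘF : ((C.σ Θ : 𝓞 F) : F) = (C.σ (C.σ (C.σ θ)) : 𝓞 F) * ((C.σ η : 𝓞 F) : F) := by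
      exact_mod_cast congrArg (algebraMap (𝓞 F) F) sΘ
    rw [hΘF, hsΘF] at hyF
    set A : F := (θ : F)
    set B : F := ((C.σ θ : 𝓞 F) : F)
    set A2 : F := ((C.σ (C.σ θ) : 𝓞 F) : F)
    set B2 : F := ((C.σ (C.σ (C.σ θ)) : 𝓞 F) : F)
    set E : F := (η : F)
    set E1 : F := ((C.σ η : 𝓞 F) : F)
    have k7 : A ^ 2 * B * (n' : F) ^ 3 ≠ 0 := mul_ne_zero (mul_ne_zero (pow_ne_zero _ k5) k6) (pow_ne_zero _ k2)
    -- multiply hyF by A^2 B n'^3
    have key : (n : F) ^ 5 * (n' : F) ^ 5 = (m' : F) ^ 5 * γ ^ 5 * (g : F) ^ 5 * y := by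
      have t1 : A ^ 2 * B * (A2 ^ 2 * B2) = (n : F) ^ 5 * (n' : F) ^ 4 := by
        calc A ^ 2 * B * (A2 ^ 2 * B2) = (A * A2) ^ 2 * (B * B2) := by ring
          _ = _ := by rw [eqF1, eqF2]; ring
      have t2 : (n : F) ^ 5 * (n' : F) ^ 4 * (E ^ 2 * E1) = A ^ 2 * B * ((g : F) ^ 5 * (n' * m') ^ 2 * y) := by
        rw [← hyF, ← t1]
        ring
      have t3 : (E ^ 2 * E1) * ((n : F) ^ 5 * (n' : F) ^ 5) =
          (E ^ 2 * E1) * ((m' : F) ^ 5 * γ ^ 5 * (g : F) ^ 5 * y) := by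
        have : (n' : F) ^ 2 ≠ 0 := pow_ne_zero _ k2
        apply mul_left_cancel₀ this
        calc (n' : F) ^ 2 * ((E ^ 2 * E1) * ((n : F) ^ 5 * (n' : F) ^ 5))
            = (n' : F) ^ 3 * ((n : F) ^ 5 * (n' : F) ^ 4 * (E ^ 2 * E1)) := by ring
          _ = (A ^ 2 * B * (n' : F) ^ 3) * ((g : F) ^ 5 * (n' * m') ^ 2 * y) := by rw [t2]; ring
          _ = _ := by rw [hγ']; ring
      have k8 : E ^ 2 * E1 ≠ 0 := mul_ne_zero (pow_ne_zero _ (cs _ b4)) (cs _ (s0 _ b4))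
      exact mul_left_cancel₀ k8 t3
    rw [hδ, div_pow, div_eq_iff (pow_ne_zero _ (mul_ne_zero (mul_ne_zero k4 γ0) gF))]
    rw [mul_pow, key]
    ring
  have hint : IsIntegral ℤ δ := by
    apply IsIntegral.of_pow (n := 5) (by norm_num)
    rw [hδ5]
    exact y.2
  let z : 𝓞 F := ⟨δ, hint⟩
  have hz : (z : F) = δ := rfl
  have hz5 : z ^ 5 = y := by
    apply inj
    rw [map_pow]
    exact hδ5
  have hZ : Zr C f g p q z := by
    unfold Zr
    rw [nm, hz5]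
    change y * (g : 𝓞 F) ^ 5 * (n' * m') ^ 2 = (C.σ (C.σ θ) * η) ^ 2 * C.σ (C.σ (C.σ θ) * η)
    rw [← hΘ, hy]
    ring
  refine ⟨z, hZ, ?_⟩
  apply C.z5
  rw [map_mul]
  change (z * C.σ (C.σ z) * (g : 𝓞 F) ^ 2) ^ 5 = (n * m) ^ 5
  have e1 : z ^ 5 * (g : 𝓞 F) ^ 5 * (n' * m') ^ 2 = Θ ^ 2 * C.σ Θ := by
    rw [hz5, hy]
    ring
  have e2 : (C.σ (C.σ z)) ^ 5 * (g : 𝓞 F) ^ 5 * (n' * m') ^ 2 = (C.σ (C.σ Θ)) ^ 2 * C.σ (C.σ (C.σ Θ)) := by
    have := congrArg (fun x => C.σ (C.σ x)) e1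
    simp only [map_mul, map_pow, map_natCast, sn', sm', sn, sm] at this
    simpa only [map_mul] using this
  have e3 : Θ * C.σ (C.σ Θ) = (n ^ 2 * n') * (m ^ 2 * m') := by
    rw [← a1, ← b1, hΘ, map_mul, map_mul, a5]
    ring
  have e4 : C.σ Θ * C.σ (C.σ (C.σ Θ)) = (n' ^ 2 * n) * (m' ^ 2 * m) := by
    have := congrArg C.σ e3
    simp only [map_mul, map_pow, sn', sm', sn, sm] at this
    rw [← map_mul] at this
    simpa only [map_mul] using this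
  apply mul_right_cancel₀ (b := (n' * m') ^ 4) (pow_ne_zero _ (mul_ne_zero n0' m0'))
  calc (z * C.σ (C.σ z) * (g : 𝓞 F) ^ 2) ^ 5 * (n' * m') ^ 4
      = (z ^ 5 * (g : 𝓞 F) ^ 5 * (n' * m') ^ 2) * ((C.σ (C.σ z)) ^ 5 * (g : 𝓞 F) ^ 5 * (n' * m') ^ 2) := by ring
    _ = (Θ * C.σ (C.σ Θ)) ^ 2 * (C.σ Θ * C.σ (C.σ (C.σ Θ))) := by rw [e1, e2]; ring
    _ = _ := by rw [e3, e4]; ring

end Pool.Agent.RF
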