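import Pool.Agent.helper60.RF.TRI

set_option autoImplicit false

namespace Pool.Agent.RF

open NumberField

theorem NZB_inj {D : ℤ} {F : Type} [Field F] [NumberField F] (C : Ctx D F) : Function.Injective C.ι := by
  intro a b h
  have := C.ind (a - b) 0 (by rw [map_sub, h]; simp)
  exact sub_eq_zero.1 this.1

/-- if `Θ² σΘ` is fixed by `τ` then `Θ` is -/
theorem NZB_rho {D : ℤ} {F : Type} [Field F] [NumberField F] (C : Ctx D F) (T : 𝓞 F) (hT : T ≠ 0)
    (h4 : ∀ x : 𝓞 F, C.σ (C.σ (C.σ (C.σ x))) = x)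
    (h : T ^ 2 * C.σ T = (C.σ (C.σ T)) ^ 2 * C.σ (C.σ (C.σ T))) : T = C.σ (C.σ T) := by
  have s0 : ∀ x : 𝓞 F, x ≠ 0 → C.σ x ≠ 0 := by
    intro x hx h
    exact hx (by simpa using h)
  have e1 := congrArg C.σ h
  simp only [map_mul, map_pow, h4] at e1
  -- e1 : σT ^ 2 * σσT = σσσT ^ 2 * T
  set A := T
  set B := C.σ T
  set A2 := C.σ (C.σ T)
  set B2 := C.σ (C.σ (C.σ T))
  have hB2 : B2 ≠ 0 := s0 _ (s0 _ (s0 _ hT))
  have hA2 : A2 ≠ 0 := s0 _ (s0 _ hT)
  have hA : A ≠ 0 := hT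
  have hB : B ≠ 0 := s0 _ hT
  apply C.z5
  -- A^4 B^2 = A2^4 B2^2, B^2 A2 = B2^2 A
  have e2 : (A ^ 2 * B) ^ 2 = (A2 ^ 2 * B2) ^ 2 := by rw [h]
  apply mul_right_cancel₀ (b := B ^ 2) (pow_ne_zero _ hB)
  calc A ^ 5 * B ^ 2 = A * (A ^ 2 * B) ^ 2 := by ring
    _ = A2 ^ 4 * (B2 ^ 2 * A) := by rw [e2]; ring
    _ = A2 ^ 5 * B ^ 2 := by rw [← e1]; ring

theorem NZB_norm (z : OO) : z ^ 2 * star z = z * ((z.norm : ℤ) : OO) := by
  have : ((z.norm : ℤ) : OO) = z * star z := by
    rw [← QuadraticAlgebra.algebraMap_norm_eq_mul_star]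
    simp
  rw [this]
  ring

theorem NZB_norm0 (a : OO) (h2 : a.norm = 0) : a = 0 := by
  have h6 : a.re * a.re + a.re * a.im - a.im * a.im = 0 := by
    have := h2
    rw [QuadraticAlgebra.norm_def] at this
    linarith
  have h7 : (2 * a.re + a.im) ^ 2 = 5 * a.im ^ 2 := by linear_combination 4 * h6
  have h8 : a.im = 0 := by
    by_contra hne
    have hirr : Irrational (√(5 : ℝ)) := by
      have : Nat.Prime 5 := by norm_num
      exact_mod_cast this.irrational_sqrt
    apply hirr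
    have hne' : (a.im : ℝ) ≠ 0 := by exact_mod_cast hne
    refine ⟨|((2 * a.re + a.im : ℤ) : ℚ) / (a.im : ℚ)|, ?_⟩
    have h9 : (((2 * a.re + a.im : ℤ) : ℝ) / (a.im : ℝ)) ^ 2 = 5 := by
      rw [div_pow, div_eq_iff (pow_ne_zero _ hne')]
      exact_mod_cast h7
    have h10 : √(5 : ℝ) = |((2 * a.re + a.im : ℤ) : ℝ) / (a.im : ℝ)| := by
      rw [← h9, Real.sqrt_sq_eq_abs]
    rw [h10]
    push_cast
    rfl
  rw [h8] at h6
  have h11 : a.re = 0 := by
    have : a.re * a.re = 0 := by linarith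
    exact mul_self_eq_zero.1 this
  exact QuadraticAlgebra.ext h11 h8

theorem NZB_dom : IsDomain OO := by
  haveI : NoZeroDivisors OO := by
    constructor
    intro a b h
    have h1 := congrArg QuadraticAlgebra.norm h
    rw [map_mul, QuadraticAlgebra.norm_zero] at h1
    rcases mul_eq_zero.1 h1 with h2 | h2
    · exact Or.inl (NZB_norm0 a h2)
    · exact Or.inr (NZB_norm0 b h2)
  exact NoZeroDivisors.to_isDomain OO

theorem NZB_n (a b : OO) (ha : a ≠ 0) (h : a ^ 2 * star a = b ^ 2 * star b) : a = b := by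
  haveI := NZB_dom
  have h1 : a.norm ^ 3 = b.norm ^ 3 := by
    have := congrArg QuadraticAlgebra.norm h
    rw [map_mul, map_mul, map_pow, map_pow, QuadraticAlgebra.norm_star, QuadraticAlgebra.norm_star] at this
    calc a.norm ^ 3 = a.norm ^ 2 * a.norm := by ring
      _ = b.norm ^ 2 * b.norm := this
      _ = _ := by ring
  have h2 : a.norm = b.norm := by
    have hodd : Odd 3 := by decide
    exact hodd.strictMono_pow.injective h1
  rw [NZB_norm, NZB_norm, h2] at h
  have h3 : ((b.norm : ℤ) : OO) ≠ 0 := by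
    intro h0
    have h4 : b.norm = 0 := by
      have := congrArg QuadraticAlgebra.re h0
      simpa using this
    rw [h4] at h2
    exact ha (NZB_norm0 a h2)
  exact mul_right_cancel₀ h3 h

theorem NZB_pos (D₀ : ℤ) (f : ℕ) (p : Pt) (hp : IsPt p) (hpD : p.D = D₀ * (f : ℤ) ^ 2) : f ≠ 0 := by
  rintro rfl
  have := hp.D0
  rw [hpD] at this
  simp at this

theorem NZB (h1 : TID_stmt) : NZB_stmt := by
  intro D₀ F _ _ C p q f g hg hp hq hpD hqD hk hne z hz hfix
  obtain ⟨p1, p2, p3, p4, p5, p6, p7, p8, p9⟩ := TRI_pt h1 D₀ F C p f hp hpD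
  obtain ⟨q1, q2, q3, q4, q5, q6, q7, q8, q9⟩ := TRI_pt h1 D₀ F C q f hq hqD
  have hf := NZB_pos D₀ f p hp hpD
  haveI := NZB_dom
  unfold Zr at hz
  set T := C.σ (C.σ (th C f p)) * th C f q with hT
  have T0 : T ≠ 0 := mul_ne_zero (p9 _ (p9 _ p5)) q5
  have e1 : T ^ 2 * C.σ T = (C.σ (C.σ T)) ^ 2 * C.σ (C.σ (C.σ T)) := by
    have := congrArg (fun x => C.σ (C.σ x)) hz
    simp only [map_mul, map_pow, map_natCast, p6, p7, q6, q7, hfix] at this
    have h2 := hz
    rw [map_mul] at h2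
    rw [← h2, this]
  have hTT := NZB_rho C T T0 p8 e1
  -- coefficient of w
  have hw : C.σ (C.σ C.w) = -C.w := by
    have s1 := C.σw
    have s2 := congrArg C.σ s1
    rw [map_mul, C.σι] at s2
    -- ι(star ph) * σσw = σ w
    have s3 : C.ι (ph * star ph) * C.σ (C.σ C.w) = C.w := by
      rw [map_mul, mul_assoc, s2, s1]
    have s4 : ph * star ph = (-1 : OO) := by
      apply QuadraticAlgebra.ext <;> simp [ph, QuadraticAlgebra.re_one, QuadraticAlgebra.im_one]
    rw [s4, map_neg, map_one] at s3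
    linear_combination -s3
  have hθ : C.σ (C.σ (th C f p)) = C.ι p.X - C.ι (25 * p.k) * (f : 𝓞 F) * C.w := by
    unfold th
    simp only [map_add, map_mul C.σ, C.σι, star_star, map_natCast, hw]
    ring
  have hθ2 : C.σ (C.σ (th C f q)) = C.ι q.X - C.ι (25 * q.k) * (f : 𝓞 F) * C.w := by
    unfold th
    simp only [map_add, map_mul C.σ, C.σι, star_star, map_natCast, hw]
    ring
  have hTT2 : C.σ (C.σ T) = th C f p * C.σ (C.σ (th C f q)) := by
    rw [hT]
    simp only [map_mul, p8]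
  rw [hTT2, hT, hθ, hθ2] at hTT
  unfold th at hTT
  have e2 : C.ι 0 + C.ι (2 * (f : OO) * 25 * (p.X * q.k - p.k * q.X)) * C.w = 0 := by
    have : (C.ι p.X - C.ι (25 * p.k) * (f : 𝓞 F) * C.w) * (C.ι q.X + C.ι (25 * q.k) * (f : 𝓞 F) * C.w) -
      (C.ι p.X + C.ι (25 * p.k) * (f : 𝓞 F) * C.w) * (C.ι q.X - C.ι (25 * q.k) * (f : 𝓞 F) * C.w) = 0 :=
      sub_eq_zero.2 hTT
    rw [← this]
    simp only [map_zero, map_mul, map_sub, map_natCast, map_ofNat]
    ring
  have e3 := (C.ind _ _ e2).2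
  have e4 : p.X * q.k = p.k * q.X := by
    have hc : (2 * (f : OO) * 25) ≠ 0 := by
      intro h0
      have h1 : ((50 * f : ℕ) : OO) = 0 := by
        rw [← h0]
        push_cast
        ring
      have := congrArg QuadraticAlgebra.re h1
      rw [QuadraticAlgebra.re_natCast, QuadraticAlgebra.re_zero] at this
      exact hf (by exact_mod_cast (by simpa using this : (f : ℤ) = 0))
    exact sub_eq_zero.1 ((mul_eq_zero.1 e3).resolve_left hc)
  -- k coprime to X
  have cop : ∀ r : Pt, IsPt r → IsCoprime r.k r.X := by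
    intro r hr
    have h2 : IsCoprime r.k (r.n ^ 2 * star r.n) := (hr.kn.pow_right).mul_right hr.kn'
    have h3 : IsCoprime r.k (r.X ^ 2) := by
      rw [← hr.e1] at h2
      have : r.X ^ 2 + w2 * (r.D : OO) * (25 * r.k) ^ 2 = r.X ^ 2 + r.k * (w2 * (r.D : OO) * 625 * r.k) := by ring
      rw [this] at h2
      exact (IsCoprime.add_mul_left_right_iff).1 h2
    exact (IsCoprime.pow_right_iff (by norm_num)).1 h3
  have hdiv : p.k ∣ q.k := by
    have : p.k ∣ p.X * q.k := by rw [e4]; exact dvd_mul_right _ _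
    exact (cop p hp).dvd_of_dvd_mul_left this
  have hkk := hk hdiv
  have hX : p.X = q.X := by
    rw [← hkk, mul_comm p.k] at e4
    exact mul_right_cancel₀ hp.k0 e4
  have hD : p.D = q.D := by rw [hpD, hqD]
  have hn : p.n = q.n := by
    apply NZB_n
    · intro h0
      apply p3
      rw [h0, map_zero]
    · rw [← hp.e1, ← hq.e1, hX, hD, hkk]
  apply hne
  have hM : p.M = q.M := by
    have n0 : p.n ≠ 0 := by
      intro h0
      apply p3
      rw [h0, map_zero]
    apply mul_left_cancel₀ n0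
    rw [hp.e2, hX, hkk, hn, hq.e2]
  exact Pt.ext hkk hX hn hM hD

end Pool.Agent.RF
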