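import Pool.Agent.helper60.RF.TRV

set_option autoImplicit false

namespace Pool.Agent.RF

open NumberField

theorem POSb_star_a (z : OO) : va (star z) = vb z := by
  unfold va vb
  rw [QuadraticAlgebra.re_star, QuadraticAlgebra.im_star]
  push_cast
  ring

theorem POSb_star_b (z : OO) : vb (star z) = va z := by
  unfold va vb
  rw [QuadraticAlgebra.re_star, QuadraticAlgebra.im_star]
  push_cast
  ring

theorem POSb_ne (z : OO) (hz : z ≠ 0) : va z ≠ 0 ∧ vb z ≠ 0 := by
  have h := TRV_norm z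
  have h2 : (z.norm : ℝ) ≠ 0 := by
    intro h0
    exact hz (NZB_norm0 z (by exact_mod_cast h0))
  rw [← h] at h2
  exact ⟨left_ne_zero_of_mul h2, right_ne_zero_of_mul h2⟩

theorem POSb : POS_stmt := by
  intro p hp
  have hd := NZB_dom
  have hk : (25 * p.k : OO) ≠ 0 := by
    have h25 : (25 : OO) ≠ 0 := by
      intro h
      have := congrArg QuadraticAlgebra.re h
      rw [QuadraticAlgebra.re_ofNat] at this
      simp at this
    exact mul_ne_zero h25 hp.k0
  obtain ⟨k1, k2⟩ := POSb_ne _ hk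
  have hD : (0 : ℝ) < (p.D : ℝ) := by exact_mod_cast hp.D0
  have ea := congrArg va hp.e1
  have eb := congrArg vb hp.e1
  rw [TRV_va_add, TRV_va_pow, TRV_va_mul, TRV_va_mul, TRV_va_int, TRV_va_pow, TRV_va_mul (p.n ^ 2), TRV_va_pow, POSb_star_a] at ea
  rw [TRV_vb_add, TRV_vb_pow, TRV_vb_mul, TRV_vb_mul, TRV_vb_int, TRV_vb_pow, TRV_vb_mul (p.n ^ 2), TRV_vb_pow, POSb_star_b] at eb
  have wa := TRV_w2a
  have wb := TRV_w2b
  have la : 0 < va p.X ^ 2 + va w2 * (p.D : ℝ) * va (25 * p.k) ^ 2 := by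
    have : 0 < va w2 * (p.D : ℝ) * va (25 * p.k) ^ 2 := by positivity
    nlinarith [sq_nonneg (va p.X)]
  have lb : 0 < vb p.X ^ 2 + vb w2 * (p.D : ℝ) * vb (25 * p.k) ^ 2 := by
    have : 0 < vb w2 * (p.D : ℝ) * vb (25 * p.k) ^ 2 := by positivity
    nlinarith [sq_nonneg (vb p.X)]
  rw [ea] at la
  rw [eb] at lb
  have h1 : 0 < vb p.n := by
    by_contra h
    push Not at h
    nlinarith [sq_nonneg (va p.n)]
  have h2 : 0 < va p.n := by
    by_contra h
    push Not at h
    nlinarith [sq_nonneg (vb p.n)]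
  have h3 := TRV_norm p.n
  refine ⟨h2, h1, ?_, h3.symm⟩
  have : (0 : ℝ) < (p.n.norm : ℝ) := by rw [← h3]; positivity
  exact_mod_cast this

end Pool.Agent.RF
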