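import Pool.Agent.helper60.RF.DEL
import Pool.Agent.helper60.RF.NZB

set_option autoImplicit false

namespace Pool.Agent.RF

open NumberField

theorem TRV_s5 : (√(5 : ℝ)) ^ 2 = 5 := Real.sq_sqrt (by norm_num)

theorem TRV_va_mul (x y : OO) : va (x * y) = va x * va y := by
  unfold va
  rw [QuadraticAlgebra.re_mul, QuadraticAlgebra.im_mul]
  push_cast
  have := TRV_s5
  linear_combination (-(x.im * y.im / 4 : ℝ)) * this

theorem TRV_vb_mul (x y : OO) : vb (x * y) = vb x * vb y := by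
  unfold vb
  rw [QuadraticAlgebra.re_mul, QuadraticAlgebra.im_mul]
  push_cast
  have := TRV_s5
  linear_combination (-(x.im * y.im / 4 : ℝ)) * this

theorem TRV_va_add (x y : OO) : va (x + y) = va x + va y := by
  unfold va
  rw [QuadraticAlgebra.re_add, QuadraticAlgebra.im_add]
  push_cast
  ring

theorem TRV_vb_add (x y : OO) : vb (x + y) = vb x + vb y := by
  unfold vb
  rw [QuadraticAlgebra.re_add, QuadraticAlgebra.im_add]
  push_cast
  ring

theorem TRV_va_int (m : ℤ) : va (m : OO) = m := by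
  unfold va
  simp

theorem TRV_vb_int (m : ℤ) : vb (m : OO) = m := by
  unfold vb
  simp

theorem TRV_va_one : va 1 = 1 := by simpa using TRV_va_int 1
theorem TRV_vb_one : vb 1 = 1 := by simpa using TRV_vb_int 1

theorem TRV_va_pow (x : OO) (n : ℕ) : va (x ^ n) = va x ^ n := by
  induction n with
  | zero => rw [pow_zero, pow_zero, TRV_va_one]
  | succ n ih => rw [pow_succ, TRV_va_mul, ih, pow_succ]

theorem TRV_vb_pow (x : OO) (n : ℕ) : vb (x ^ n) = vb x ^ n := by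
  induction n with
  | zero => rw [pow_zero, pow_zero, TRV_vb_one]
  | succ n ih => rw [pow_succ, TRV_vb_mul, ih, pow_succ]

theorem TRV_norm (x : OO) : va x * vb x = (x.norm : ℤ) := by
  unfold va vb
  rw [QuadraticAlgebra.norm_def]
  push_cast
  have := TRV_s5
  linear_combination (-(x.im * x.im / 4 : ℝ)) * this

theorem TRV_w2 : va w2 * vb w2 = 5 := by
  rw [TRV_norm, QuadraticAlgebra.norm_def]
  simp [w2]

theorem TRV_w2a : 0 < va w2 := by
  unfold va w2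
  have := Real.sqrt_nonneg (5 : ℝ)
  simp
  linarith

theorem TRV_w2b : 0 < vb w2 := by
  have h1 := TRV_w2
  have h2 := TRV_w2a
  by_contra h
  push Not at h
  nlinarith

theorem TRV_ww {D : ℤ} {F : Type} [Field F] [NumberField F] (C : Ctx D F) : C.σ (C.σ C.w) = -C.w := by
  have s1 := C.σw
  have s2 := congrArg C.σ s1
  rw [map_mul, C.σι] at s2
  have s3 : C.ι (ph * star ph) * C.σ (C.σ C.w) = C.w := by
    rw [map_mul, mul_assoc, s2, s1]
  have s4 : ph * star ph = (-1 : OO) := by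
    apply QuadraticAlgebra.ext <;> simp [ph, QuadraticAlgebra.re_one, QuadraticAlgebra.im_one]
  rw [s4, map_neg, map_one] at s3
  linear_combination -s3

theorem TRV (h1 : TID_stmt) (h2 : LOC_stmt) (h3 : VVM_stmt) (h4 : VV5_stmt) (_h5 : POS_stmt) : TRV_stmt := by
  intro D₀ F _ _ C p f hD0 hp hpD hct hnD hγ
  obtain ⟨γ, hγ⟩ := hγ
  obtain ⟨a1, a1', n0, n0', a4, sn, sn', a5, s0⟩ := TRI_pt h1 D₀ F C p f hp hpD
  have hf := NZB_pos D₀ f p hp hpD
  have hb : be C f p = (th C f p) ^ 2 * C.σ (th C f p) * (C.ι (star p.n)) ^ 3 := rfl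
  have hthd : th C f p = C.ι p.X + C.ι (25 * p.k) * (f : 𝓞 F) * C.w := rfl
  set θ := th C f p with hθ
  set n := C.ι p.n with hn
  set n' := C.ι (star p.n) with hn'
  have hdvd : n' ^ 2 ∣ (C.σ (C.σ θ)) ^ 2 * C.σ (C.σ (C.σ θ)) := by
    apply (h4 F).1
    · exact pow_ne_zero _ n0'
    · exact mul_ne_zero (pow_ne_zero _ (s0 _ (s0 _ a4))) (s0 _ (s0 _ (s0 _ a4)))
    · intro P hP hP0
      have V := (h3 F P hP hP0).1
      have V2 := DEL_pow h3 F P hP hP0
      obtain ⟨l, hl, hlP⟩ := DEL_prime F P hP hP0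
      have hlp : ¬ (l : OO) ∣ p.n := by
        intro hh
        have := DEL_ct p l hh
        rw [hct] at this
        exact hl.one_lt.ne' (Nat.dvd_one.1 this)
      obtain ⟨u0, u1, u2, u3, w1, w2, w3, w4, w5, w6⟩ := h2 D₀ F C p f hp hpD l P hl hP hlP hP0 hlp
      rw [V2 _ n0', V _ _ (pow_ne_zero _ (s0 _ (s0 _ a4))) (s0 _ (s0 _ (s0 _ a4))), V2 _ (s0 _ (s0 _ a4))]
      rw [← hθ] at w3 w4 w5 w6
      rw [← hn'] at w2
      omega
  obtain ⟨y, hy⟩ := hdvd
  have inj : Function.Injective (algebraMap (𝓞 F) F) := RingOfIntegers.coe_injective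
  have cs : ∀ x : 𝓞 F, x ≠ 0 → (x : F) ≠ 0 := by
    intro x hx h
    exact hx (by simpa using h)
  have hβ0 : be C f p ≠ 0 := by
    rw [hb]
    exact mul_ne_zero (mul_ne_zero (pow_ne_zero _ a4) (s0 _ a4)) (pow_ne_zero _ n0')
  have γ0 : γ ≠ 0 := by
    rintro rfl
    apply cs _ hβ0
    rw [hγ]
    ring
  have hby : be C f p * y = n ^ 5 * n' ^ 5 := by
    apply mul_right_cancel₀ (b := n' ^ 2) (pow_ne_zero _ n0')
    calc be C f p * y * n' ^ 2 = be C f p * (n' ^ 2 * y) := by ring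
      _ = (θ * C.σ (C.σ θ)) ^ 2 * (C.σ θ * C.σ (C.σ (C.σ θ))) * n' ^ 3 := by rw [← hy, hb]; ring
      _ = _ := by rw [a1, a1']; ring
  set δ : F := (n : F) * n' / γ with hδ
  have hδ5 : δ ^ 5 = (y : F) := by
    have e1 : (be C f p : F) * y = (n : F) ^ 5 * (n' : F) ^ 5 := by
      exact_mod_cast congrArg (algebraMap (𝓞 F) F) hby
    rw [hγ] at e1
    rw [hδ, div_pow, div_eq_iff (pow_ne_zero _ γ0), mul_pow, ← e1]
    ring
  have hint : IsIntegral ℤ δ := by
    apply IsIntegral.of_pow (n := 5) (by norm_num)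
    rw [hδ5]
    exact y.2
  let z : 𝓞 F := ⟨δ, hint⟩
  have hz5 : z ^ 5 = y := by
    apply inj
    rw [map_pow]
    exact hδ5
  have e1 : z ^ 5 * n' ^ 2 = (C.σ (C.σ θ)) ^ 2 * C.σ (C.σ (C.σ θ)) := by
    rw [hz5, hy]
    ring
  have e2 : (C.σ (C.σ z)) ^ 5 * n' ^ 2 = θ ^ 2 * C.σ θ := by
    have := congrArg (fun x => C.σ (C.σ x)) e1
    simp only [map_mul, map_pow, sn', sn, a5] at this
    exact this
  have e3 : z * C.σ (C.σ z) = n := by
    apply C.z5
    apply mul_right_cancel₀ (b := n' ^ 4) (pow_ne_zero _ n0')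
    calc (z * C.σ (C.σ z)) ^ 5 * n' ^ 4 = (z ^ 5 * n' ^ 2) * ((C.σ (C.σ z)) ^ 5 * n' ^ 2) := by ring
      _ = (θ * C.σ (C.σ θ)) ^ 2 * (C.σ θ * C.σ (C.σ (C.σ θ))) := by rw [e1, e2]; ring
      _ = _ := by rw [a1, a1']; ring
  have hww := TRV_ww C
  have hdom := NZB_dom
  have hne : C.σ (C.σ z) ≠ z := by
    intro hfix
    rw [hfix] at e2
    have e4 : θ ^ 2 * C.σ θ = (C.σ (C.σ θ)) ^ 2 * C.σ (C.σ (C.σ θ)) := by rw [← e1, ← e2]
    have e5 := NZB_rho C θ a4 a5 e4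
    have e6 : C.σ (C.σ θ) = C.ι p.X - C.ι (25 * p.k) * (f : 𝓞 F) * C.w := by
      rw [hthd]
      simp only [map_add, map_mul C.σ, C.σι, star_star, map_natCast, hww]
      ring
    rw [e6, hthd] at e5
    have e7 : C.ι 0 + C.ι (((50 * f : ℕ) : OO) * p.k) * C.w = 0 := by
      have : C.ι p.X + C.ι (25 * p.k) * (f : 𝓞 F) * C.w - (C.ι p.X - C.ι (25 * p.k) * (f : 𝓞 F) * C.w) = 0 :=
        sub_eq_zero.2 e5
      rw [← this]
      simp only [map_zero, map_mul, map_natCast, map_ofNat]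
      push_cast
      ring
    have e8 := (C.ind _ _ e7).2
    rcases mul_eq_zero.1 e8 with h | h
    · have := congrArg QuadraticAlgebra.re h
      rw [QuadraticAlgebra.re_natCast, QuadraticAlgebra.re_zero] at this
      exact hf (by exact_mod_cast (by simpa using this : (f : ℤ) = 0))
    · exact hp.k0 h
  obtain ⟨a, b, hab⟩ := C.co z
  have hab' : 10 * C.σ (C.σ z) = C.ι a - C.ι b * C.w := by
    have := congrArg (fun x => C.σ (C.σ x)) hab
    simp only [map_mul C.σ, map_add, C.σι, star_star, hww, map_ofNat] at this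
    rw [this]
    ring
  have b0 : b ≠ 0 := by
    rintro rfl
    apply hne
    have h10 : (10 : 𝓞 F) ≠ 0 := by norm_num
    apply mul_left_cancel₀ h10
    rw [hab, hab', map_zero]
    ring
  have e9 : a ^ 2 + b ^ 2 * w2 * (D₀ : OO) = 100 * p.n := by
    apply NZB_inj C
    have e10 : (10 * z) * (10 * C.σ (C.σ z)) = 100 * n := by rw [← e3]; ring
    rw [hab, hab'] at e10
    simp only [map_add, map_mul, map_pow, map_intCast, map_ofNat]
    rw [← hn, ← e10]
    have := C.ww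
    linear_combination ((C.ι b) ^ 2) * this
  have ea := congrArg va e9
  have eb := congrArg vb e9
  rw [TRV_va_add, TRV_va_pow, TRV_va_mul, TRV_va_mul, TRV_va_pow, TRV_va_mul, TRV_va_int] at ea
  rw [TRV_vb_add, TRV_vb_pow, TRV_vb_mul, TRV_vb_mul, TRV_vb_pow, TRV_vb_mul, TRV_vb_int] at eb
  have h100a : va 100 = 100 := by simpa using TRV_va_int 100
  have h100b : vb 100 = 100 := by simpa using TRV_vb_int 100
  rw [h100a] at ea
  rw [h100b] at eb
  have hDr : (0 : ℝ) < (D₀ : ℝ) := by exact_mod_cast hD0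
  have wa := TRV_w2a
  have wb := TRV_w2b
  have ka : va b ^ 2 * va w2 * (D₀ : ℝ) ≤ 100 * va p.n := by nlinarith [sq_nonneg (va a)]
  have kb : vb b ^ 2 * vb w2 * (D₀ : ℝ) ≤ 100 * vb p.n := by nlinarith [sq_nonneg (vb a)]
  have ka0 : 0 ≤ va b ^ 2 * va w2 * (D₀ : ℝ) := by positivity
  have kb0 : 0 ≤ vb b ^ 2 * vb w2 * (D₀ : ℝ) := by positivity
  have kk := mul_le_mul ka kb kb0 (le_trans ka0 ka)
  have e11 : va b ^ 2 * va w2 * (D₀ : ℝ) * (vb b ^ 2 * vb w2 * (D₀ : ℝ)) = (b.norm : ℝ) ^ 2 * 5 * (D₀ : ℝ) ^ 2 := by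
    rw [← TRV_norm b, ← TRV_w2]
    ring
  have e12 : 100 * va p.n * (100 * vb p.n) = 10000 * (p.n.norm : ℝ) := by
    rw [← TRV_norm p.n]
    ring
  rw [e11, e12] at kk
  have hbn : (1 : ℝ) ≤ (b.norm : ℝ) ^ 2 := by
    have h0 : b.norm ≠ 0 := fun h => b0 (NZB_norm0 b h)
    have : (1 : ℤ) ≤ b.norm ^ 2 := by
      have := sq_nonneg b.norm
      have h2 : b.norm ^ 2 ≠ 0 := pow_ne_zero _ h0
      omega
    exact_mod_cast this
  have hnn : (p.n.norm : ℝ) ≤ (D₀ : ℝ) * (f : ℝ) ^ 2 := by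
    have h1 : p.n.norm ≤ D₀ * (f : ℤ) ^ 2 := by
      rw [← hpD]
      exact le_trans (le_abs_self _) hnD
    exact_mod_cast h1
  have h13 : 5 * (D₀ : ℝ) ^ 2 ≤ 10000 * ((D₀ : ℝ) * (f : ℝ) ^ 2) := by
    nlinarith [sq_nonneg (D₀ : ℝ)]
  have h14 : (D₀ : ℝ) ≤ 2000 * (f : ℝ) ^ 2 := by
    have : 5 * (D₀ : ℝ) * (D₀ : ℝ) ≤ 5 * (D₀ : ℝ) * (2000 * (f : ℝ) ^ 2) := by nlinarith
    exact le_of_mul_le_mul_left this (by positivity)
  exact_mod_cast h14

end Pool.Agent.RF
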