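import Pool.Agent.helper60.RF.RDA
import Pool.Agent.helper60.RF.NZB
import Pool.Agent.helper60.RF.TRV
import Pool.Agent.helper60.RF.POSb
import Pool.Agent.helper48.RF.CTA
import Pool.Agent.helper92.RF.CTI
import Pool.Agent.helper91.RF.SQO
import Pool.Agent.helper71.RF.CTB
import Pool.Agent.helper75.RF.CTZ
import Pool.Agent.helper43.RF.CTX
import Pool.Agent.helper33.RF.TRA
import Pool.Agent.helper4.RF.OCP
import Pool.Agent.helper66.RF.GDV
import Pool.Agent.helper75.RF.TID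
import Pool.Agent.helper9.RF.VVM
import Pool.Agent.helper26.RF.VV5
import Pool.Agent.helper14.RF.LOC
import Pool.Agent.helper92.RF.LAB
import Pool.Agent.helper54.RF.SPC
import Pool.Agent.helper61.RF.YDV
import Pool.Agent.helper41.RF.MUL
import Pool.Agent.helper85.RF.TYP
import Pool.Agent.helper13.RF.CLS
import Pool.Agent.helper13.RF.CLG
import Pool.Agent.helper39.RF.CNT
import Pool.Agent.helper66.RF.CNG

set_option autoImplicit false

/-!
# RF: assembly of block B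
-/

namespace Pool.Agent.RF

theorem b_CTB : CTB_stmt := CTB CTA CTI SQO
theorem b_CTZ : CTZ_stmt := CTZ CTA
theorem b_CTX : CTX_stmt := CTX CTA b_CTB b_CTZ
theorem b_OCP : OCP_stmt := OCP TRA
theorem b_GDV : GDV_stmt := GDV TRA
theorem b_TID : TID_stmt := TID TRA
theorem b_LOC : LOC_stmt := LOC b_OCP b_TID VVM
theorem b_RDA : RDA_stmt := RDA b_TID b_LOC VVM VV5
theorem b_RDG : RDG_stmt := RDG b_TID b_LOC VVM VV5
theorem b_DEL : DEL_stmt := DEL b_TID b_LOC VVM VV5 b_GDV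
theorem b_TRI : TRI_stmt := TRI b_TID
theorem b_NZB : NZB_stmt := NZB b_TID
theorem b_YDV : YDV_stmt := YDV TRA b_TID b_OCP b_GDV
theorem b_MUL : MUL_stmt := MUL POSb b_GDV b_DEL b_TRI b_NZB LAB b_YDV SPC b_TID
theorem b_TRV : TRV_stmt := TRV b_TID b_LOC VVM VV5 POSb
theorem b_TYP : TYP_stmt := TYP b_TID VVM POSb

theorem b_CNT (hR : REFL_stmt) (hM : MEX_stmt) : CNT_stmt :=
  CNT hM b_CTX b_GDV b_TYP (CLS b_RDA hR) b_MUL

theorem b_CNG (hR : REFL_stmt) (hM : MEX_stmt) : CNG_stmt :=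
  CNG hM b_CTX b_TRV (CLG b_RDG hR) b_MUL

end Pool.Agent.RF
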