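import Pool.Agent.helper13.RF.SpecU
import Pool.Agent.helper33.RF.TRA

set_option autoImplicit false

/-!
# RF stage 2 (MP_16912e_nt), row UUE: the facts about `u = θ² σθ / n'²`
-/

namespace Pool.Agent.RF

open NumberField

theorem UUE_ph : ph * (ph - 1) = (1 : OO) := rfl

theorem UUE_ph2 : star (ph - 1) * (ph - 1) = (-1 : OO) := rfl

theorem UUE_sw {D : ℤ} {F : Type} [Field F] [NumberField F] (C : Ctx D F) : C.σ C.w = C.ι (ph - 1) * C.w := by
  have h := C.σw
  have h1 : C.ι ph * C.ι (ph - 1) = 1 := by rw [← map_mul, UUE_ph, map_one]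
  linear_combination C.ι (ph - 1) * h - C.σ C.w * h1

theorem UUE_ssw {D : ℤ} {F : Type} [Field F] [NumberField F] (C : Ctx D F) : C.σ (C.σ C.w) = -C.w := by
  have h1 : C.ι (star (ph - 1)) * C.ι (ph - 1) = -1 := by
    rw [← map_mul, UUE_ph2, map_neg, map_one]
  rw [UUE_sw, map_mul, C.σι, UUE_sw]
  linear_combination C.w * h1

theorem UUE_s4 {D : ℤ} {F : Type} [Field F] [NumberField F] (C : Ctx D F) (x : 𝓞 F) : C.σ (C.σ (C.σ (C.σ x))) = x := by
  obtain ⟨a, b, h⟩ := C.co x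
  have h1 : C.σ (C.σ (C.σ (C.σ (10 * x)))) = 10 * x := by
    rw [h]
    simp only [map_add, map_mul, C.σι, star_star, UUE_ssw, map_neg, neg_neg]
  simp only [map_mul, map_ofNat] at h1
  exact mul_left_cancel₀ (by norm_num) h1

theorem UUE_inj {D : ℤ} {F : Type} [Field F] [NumberField F] (C : Ctx D F) (x y : OO) (h : C.ι x = C.ι y) : x = y := by
  have h1 := C.ind (x - y) 0 (by rw [map_sub, h, map_zero]; ring)
  exact sub_eq_zero.1 h1.1

theorem UUE (h1 : UUV_stmt) : UUE_stmt := by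
  intro D₀ F _ _ C p f hp hD
  obtain ⟨U, V, hU, hV, hUV⟩ := h1 p hp
  have hDc : (p.D : OO) = (D₀ : OO) * (f : OO) ^ 2 := by
    rw [hD]
    push_cast
    ring
  have hσf : C.σ (f : 𝓞 F) = f := map_natCast _ _
  have hf : C.ι (f : OO) = (f : 𝓞 F) := map_natCast _ _
  have hD0 : C.ι (D₀ : OO) = (D₀ : 𝓞 F) := map_intCast _ _
  have hw := C.ww
  have hff : (f : 𝓞 F) ^ 2 * C.w ^ 2 = -(C.ι (w2 * (p.D : OO))) := by
    rw [hw, hDc, map_mul, map_mul, map_pow, hf, hD0]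
    ring
  have hf0 : (f : 𝓞 F) ≠ 0 := by
    intro h
    have h2 : (f : ℕ) = 0 := by exact_mod_cast h
    have h3 := hp.D0
    rw [hD, h2] at h3
    simp at h3
  have hD00 : D₀ ≠ 0 := by
    intro h
    have h3 := hp.D0
    rw [hD, h] at h3
    simp at h3
  have inj := UUE_inj C
  have n0 : p.n ≠ 0 := by
    intro h
    apply TRA_norm_ne _ hp.n1
    rw [h, QuadraticAlgebra.norm_def]
    simp
  have n0' : star p.n ≠ 0 := by
    intro h
    exact n0 (by simpa using congrArg star h)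
  have ιn0 : C.ι p.n ≠ 0 := by
    intro h
    exact n0 (inj _ _ (by rw [h, map_zero]))
  have ιn0' : C.ι (star p.n) ≠ 0 := by
    intro h
    exact n0' (inj _ _ (by rw [h, map_zero]))
  have hw0 : C.w ≠ 0 := by
    intro h
    have h2 := C.ind 0 1 (by rw [h]; simp)
    exact one_ne_zero h2.2
  have sθ : C.σ (th C f p) = C.ι (star p.X) + C.ι (star (25 * p.k)) * (f : 𝓞 F) * (C.ι (ph - 1) * C.w) := by
    unfold th
    rw [map_add, map_mul, map_mul, C.σι, C.σι, hσf, UUE_sw]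
  have ssθ : C.σ (C.σ (th C f p)) = C.ι p.X - C.ι (25 * p.k) * (f : 𝓞 F) * C.w := by
    unfold th
    rw [map_add, map_mul, map_mul, C.σι, C.σι, hσf, map_add, map_mul, map_mul, C.σι, C.σι, hσf, star_star, star_star, UUE_ssw]
    ring
  have key : (C.ι U + C.ι V * (f : 𝓞 F) * C.w) * C.ι (star p.n) ^ 2 = th C f p ^ 2 * C.σ (th C f p) := by
    have e1 := congrArg C.ι hU
    have e2 := congrArg C.ι hV
    simp only [map_mul, map_pow, map_sub, map_add, map_ofNat, map_one] at e1 e2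
    rw [sθ]
    unfold th
    simp only [map_mul, map_sub, map_ofNat, map_one] at hff ⊢
    linear_combination e1 + (f : 𝓞 F) * C.w * e2 -
      (25 ^ 2 * C.ι p.k ^ 2 * C.ι (star p.X) + 2 * C.ι p.X * (25 * C.ι p.k) * C.ι (star (25 * p.k)) * (C.ι ph - 1) +
        (25 * C.ι p.k) ^ 2 * C.ι (star (25 * p.k)) * (C.ι ph - 1) * (f : 𝓞 F) * C.w) * hff
  have hdv : C.ι (star p.n) ^ 2 ∣ th C f p ^ 2 * C.σ (th C f p) := ⟨C.ι U + C.ι V * (f : 𝓞 F) * C.w, by
    rw [← key]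
    ring⟩
  have hu : uu C f p = C.ι U + C.ι V * (f : 𝓞 F) * C.w := by
    unfold uu
    rw [dif_pos hdv]
    have h2 := hdv.choose_spec
    apply mul_left_cancel₀ (pow_ne_zero 2 ιn0')
    rw [← h2, ← key]
    ring
  have hsu : C.σ (C.σ (uu C f p)) = C.ι U - C.ι V * (f : 𝓞 F) * C.w := by
    rw [hu, map_add, map_mul, map_mul, C.σι, C.σι, hσf, map_add, map_mul, map_mul, C.σι, C.σι, hσf, star_star, star_star, UUE_ssw]
    ring
  have huu : uu C f p * C.σ (C.σ (uu C f p)) = C.ι p.n ^ 5 := by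
    rw [hsu, hu]
    have e3 := congrArg C.ι hUV
    simp only [map_mul, map_pow, map_add] at e3 hff
    linear_combination e3 - C.ι V ^ 2 * hff
  have hθθ : th C f p * C.σ (C.σ (th C f p)) = C.ι (p.n ^ 2 * star p.n) := by
    rw [ssθ]
    have e3 := congrArg C.ι hp.e1
    unfold th
    simp only [map_mul, map_pow, map_add] at e3 hff ⊢
    linear_combination e3 - (C.ι 25 * C.ι p.k) ^ 2 * hff
  have hu0 : uu C f p ≠ 0 := by
    intro h
    rw [h, zero_mul] at huu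
    exact pow_ne_zero 5 ιn0 huu.symm
  have hθ0 : th C f p ≠ 0 := by
    intro h
    rw [h, zero_mul, map_mul, map_pow] at hθθ
    exact mul_ne_zero (pow_ne_zero 2 ιn0) ιn0' hθθ.symm
  have hσθ : C.σ (th C f p) * C.σ (C.σ (C.σ (th C f p))) = C.ι (star p.n) ^ 2 * C.ι p.n := by
    have h2 := congrArg C.σ hθθ
    rw [map_mul, C.σι] at h2
    rw [h2]
    simp only [star_mul, star_pow, star_star, map_mul, map_pow]
    ring
  have hun : uu C f p * C.ι (star p.n) ^ 2 = th C f p ^ 2 * C.σ (th C f p) := by rw [hu, key]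
  have h3u : C.σ (C.σ (C.σ (uu C f p))) * C.ι p.n ^ 2 = C.σ (C.σ (C.σ (th C f p))) ^ 2 * th C f p := by
    have h2 := congrArg (fun x => C.σ (C.σ (C.σ x))) hun
    simp only [map_mul, map_pow, C.σι, star_star, UUE_s4] at h2
    exact h2
  refine ⟨hun, ⟨U, V, hu, hsu⟩, huu, ?_, ?_, hθθ, ?_, ?_, UUE_ssw C, UUE_sw C, hw0, hf0, hθ0, hu0, ιn0, ιn0', ?_,
    UUE_s4 C, inj⟩
  · unfold be
    linear_combination -(C.ι (star p.n) ^ 3) * hun
  · apply mul_right_cancel₀ (b := C.ι (star p.n) ^ 4 * C.ι p.n ^ 2) (mul_ne_zero (pow_ne_zero _ ιn0') (pow_ne_zero _ ιn0))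
    calc th C f p ^ 5 * (C.ι (star p.n) ^ 4 * C.ι p.n ^ 2)
        = th C f p ^ 5 * (C.ι (star p.n) ^ 2 * C.ι p.n) ^ 2 := by ring
      _ = th C f p ^ 5 * (C.σ (th C f p) * C.σ (C.σ (C.σ (th C f p)))) ^ 2 := by rw [hσθ]
      _ = (th C f p ^ 2 * C.σ (th C f p)) ^ 2 * (C.σ (C.σ (C.σ (th C f p))) ^ 2 * th C f p) := by ring
      _ = (uu C f p * C.ι (star p.n) ^ 2) ^ 2 * (C.σ (C.σ (C.σ (uu C f p))) * C.ι p.n ^ 2) := by rw [hun, h3u]
      _ = _ := by ring
  · rw [ssθ]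
    unfold th
    rw [map_mul C.ι 2, map_ofNat]
    ring
  · rw [ssθ]
    unfold th
    rw [map_mul C.ι 2, map_ofNat]
    ring
  · intro h
    apply hp.k0
    apply inj
    rw [map_zero]
    rw [map_mul, map_mul, map_ofNat, map_ofNat] at h
    rcases mul_eq_zero.1 h with h | h
    · norm_num at h
    · rcases mul_eq_zero.1 h with h | h
      · norm_num at h
      · exact h

end Pool.Agent.RF
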