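import Mathlib

set_option autoImplicit false

/-!
# RF (MP_16912e_nt): real quadratic fields with 5-torsion, exponent 1.  Definitions and interfaces

Page: /team-store/H9_MP_16912e_nt_helper60.md.  `OO = ℤ[φ]`, `star` = conjugation `x'`, `ph = φ`,
`r5 = √5`, `w2 = √5 φ = φ + 2`.
-/

namespace Pool.Agent.RF

open NumberField

/-- the ring `ℤ[φ]`, `φ ^ 2 = 1 + φ` -/
abbrev OO : Type := QuadraticAlgebra ℤ 1 1

/-- `φ` -/
def ph : OO := ⟨0, 1⟩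
/-- `√5 = 2 φ - 1` -/
def r5 : OO := ⟨-1, 2⟩
/-- `√5 φ = φ + 2` -/
def w2 : OO := ⟨2, 1⟩

/-- first real embedding -/
noncomputable def va (z : OO) : ℝ := z.re + z.im * ((1 + √5) / 2)
/-- second real embedding -/
noncomputable def vb (z : OO) : ℝ := z.re + z.im * ((1 - √5) / 2)

/-- the data of a point: `k` (the page: `K₁`), `X`, `n` (the page: `ν`), `M`, `D` -/
@[ext] structure Pt where
  k : OO
  X : OO
  n : OO
  M : OO
  D : ℤ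

/-- a point; `K = 25 k` -/
structure IsPt (p : Pt) : Prop where
  /-- `X² + √5 φ D K² = n² n'` -/
  e1 : p.X ^ 2 + w2 * (p.D : OO) * (25 * p.k) ^ 2 = p.n ^ 2 * star p.n
  /-- `n M = φ X' K - X K'` -/
  e2 : p.n * p.M = ph * star p.X * (25 * p.k) - p.X * star (25 * p.k)
  X1 : (25 : OO) ∣ p.X - 1
  n1 : (25 : OO) ∣ p.n - 1
  kn : IsCoprime p.k p.n
  kn' : IsCoprime p.k (star p.n)
  n2 : IsCoprime 2 p.n
  k0 : p.k ≠ 0
  D0 : 0 < p.D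
  D20 : p.D % 20 = 17

/-- OUTPUT OF BLOCK C (helper95, helper88): the points -/
def PTS_stmt : Prop :=
  ∀ η : ℝ, 0 < η → η ≤ 1 / 100 → ∃ N₀ : ℝ, ∀ N : ℝ, N₀ ≤ N → ∃ P : Finset Pt,
    N ^ (1 - 7 / 10 * η) ≤ (P.card : ℝ) ∧
    (∀ p ∈ P, IsPt p ∧ √N ≤ (p.D : ℝ) ∧ (p.D : ℝ) ≤ N ∧ |p.n.norm| ≤ p.D ∧
      ∀ l : ℕ, l.Prime → (l : OO) ∣ p.n → N ^ (3 / 4 * η) < (l : ℝ)) ∧
    (∀ p ∈ P, ∀ q ∈ P, p.k ∣ q.k → p.k = q.k)

/-! ## The mirror field (helper13) -/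

/-- the mirror field: `r = √5`, `w² = - √5 φ D`, `s √5 = - √5`, `s w = w / φ` -/
structure Mir (D : ℤ) (F : Type) [Field F] [NumberField F] (s : F ≃+* F) (r w : F) : Prop where
  fin : Module.finrank ℚ F = 4
  r2 : r ^ 2 = 5
  w2 : w ^ 2 = -(r * ((1 + r) / 2) * D)
  sr : s r = -r
  sw : s w = w * (2 / (1 + r))

/-- radicals of unramified extensions -/
def Rad {F : Type} [Field F] [NumberField F] (s : F ≃+* F) (b : 𝓞 F) : Prop :=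
  b ≠ 0 ∧ (∃ g : F, s (b : F) = (b : F) ^ 2 * g ^ 5) ∧ (∃ I : Ideal (𝓞 F), Ideal.span {b} = I ^ 5) ∧
    (∃ u : 𝓞 F, b = 1 + 25 * u)

/-- OUTPUT OF BLOCK A (helper13): reflection -/
def REFL_stmt : Prop :=
  ∀ D : ℤ, 1 < D → Squarefree D → D ≠ 5 → ∀ (F : Type) [Field F] [NumberField F] (s : F ≃+* F) (r w : F),
    Mir D F s r w → ∀ (K : Type) [Field K] [NumberField K], Module.finrank ℚ K = 2 →
    (∃ x : K, x ^ 2 = D) → ∀ B : Finset (𝓞 F), (∀ b ∈ B, Rad s b ∧ ¬ ∃ g : F, (b : F) = g ^ 5) →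
    (∀ b ∈ B, ∀ b' ∈ B, b ≠ b' → ¬ ∃ g : F, (b : F) = (b' : F) * g ^ 5) →
    B.card + 1 ≤ Nat.card {c : ClassGroup (𝓞 K) // c ^ 5 = 1}

/-- existence of the mirror field (helper13) -/
def MEX_stmt : Prop :=
  ∀ D : ℤ, 1 < D → Squarefree D → D ≠ 5 → ∃ (F : Type) (_ : Field F) (_ : NumberField F)
    (s : F ≃+* F) (r w : F), Mir D F s r w

end Pool.Agent.RF
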