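import Pool.Agent.helper60.RF.SpecB

set_option autoImplicit false

namespace Pool.Agent.RF

open NumberField

/-- the basic facts of one point in the field -/
theorem TRI_pt (h1 : TID_stmt) (D₀ : ℤ) (F : Type) [Field F] [NumberField F] (C : Ctx D₀ F) (p : Pt) (f : ℕ)
    (hp : IsPt p) (hpD : p.D = D₀ * (f : ℤ) ^ 2) :
    th C f p * C.σ (C.σ (th C f p)) = C.ι p.n ^ 2 * C.ι (star p.n) ∧
    C.σ (th C f p) * C.σ (C.σ (C.σ (th C f p))) = C.ι (star p.n) ^ 2 * C.ι p.n ∧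
    C.ι p.n ≠ 0 ∧ C.ι (star p.n) ≠ 0 ∧ th C f p ≠ 0 ∧
    C.σ (C.ι p.n) = C.ι (star p.n) ∧ C.σ (C.ι (star p.n)) = C.ι p.n ∧
    (∀ x : 𝓞 F, C.σ (C.σ (C.σ (C.σ x))) = x) ∧ (∀ x : 𝓞 F, x ≠ 0 → C.σ x ≠ 0) := by
  obtain ⟨a1, a2, a3, a4, a5⟩ := h1 D₀ F C p f hp hpD
  have s0 : ∀ x : 𝓞 F, x ≠ 0 → C.σ x ≠ 0 := by
    intro x hx h
    exact hx (by simpa using h)
  rw [map_mul, map_pow] at a1
  have sn : C.σ (C.ι p.n) = C.ι (star p.n) := C.σι _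
  have sn' : C.σ (C.ι (star p.n)) = C.ι p.n := by rw [C.σι, star_star]
  have n0 : C.ι p.n ≠ 0 := by
    intro h
    rw [h] at a1
    have : th C f p * C.σ (C.σ (th C f p)) ≠ 0 := mul_ne_zero a4 (s0 _ (s0 _ a4))
    apply this
    rw [a1]
    ring
  have n0' : C.ι (star p.n) ≠ 0 := by rw [← sn]; exact s0 _ n0
  refine ⟨a1, ?_, n0, n0', a4, sn, sn', a5, s0⟩
  have := congrArg C.σ a1
  rw [map_mul, map_mul, map_pow, sn, sn'] at this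
  exact this

theorem TRI (h1 : TID_stmt) : TRI_stmt := by
  intro D₀ F _ _ C o p q f g hg ho hp hq hoD hpD hqD z₁ z₂ z₃ hz1 hz2 hz3
  obtain ⟨o1, o2, o3, o4, o5, o6, o7, o8, o9⟩ := TRI_pt h1 D₀ F C o f ho hoD
  obtain ⟨p1, p2, p3, p4, p5, p6, p7, p8, p9⟩ := TRI_pt h1 D₀ F C p f hp hpD
  obtain ⟨q1, q2, q3, q4, q5, q6, q7, q8, q9⟩ := TRI_pt h1 D₀ F C q f hq hqD
  have g0 : (g : 𝓞 F) ≠ 0 := by
    have : g ≠ 0 := by omega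
    exact_mod_cast this
  unfold Zr at hz1 hz2 hz3
  simp only [map_mul] at hz1 hz2 hz3
  have hz1' := congrArg (fun x => C.σ (C.σ x)) hz1
  simp only [map_mul, map_pow, map_natCast, o6, o7, p6, p7, o8] at hz1'
  set θ := th C f o
  set A := th C f p
  set B := th C f q
  set no := C.ι o.n
  set no' := C.ι (star o.n)
  set np := C.ι p.n
  set np' := C.ι (star p.n)
  set nq := C.ι q.n
  set nq' := C.ι (star q.n)
  apply C.z5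
  apply mul_right_cancel₀ (b := (g : 𝓞 F) ^ 5 * no' ^ 4 * (np' * nq') ^ 2)
    (mul_ne_zero (mul_ne_zero (pow_ne_zero _ g0) (pow_ne_zero _ o4)) (pow_ne_zero _ (mul_ne_zero p4 q4)))
  calc ((g : 𝓞 F) * (C.σ (C.σ z₁) * z₂)) ^ 5 * ((g : 𝓞 F) ^ 5 * no' ^ 4 * (np' * nq') ^ 2)
      = (C.σ (C.σ z₁) ^ 5 * (g : 𝓞 F) ^ 5 * (no' * np') ^ 2) * (z₂ ^ 5 * (g : 𝓞 F) ^ 5 * (no' * nq') ^ 2) := by ring
    _ = (θ * C.σ (C.σ θ)) ^ 2 * (C.σ θ * C.σ (C.σ (C.σ θ))) *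
        ((C.σ (C.σ A) * B) ^ 2 * (C.σ (C.σ (C.σ A)) * C.σ B)) := by
      rw [hz1', hz2]
      ring
    _ = (no ^ 2 * no') ^ 2 * (no' ^ 2 * no) * (z₃ ^ 5 * (g : 𝓞 F) ^ 5 * (np' * nq') ^ 2) := by
      rw [o1, o2, hz3]
    _ = _ := by ring

end Pool.Agent.RF
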