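import Pool.Agent.helper60.RF.DEL
import Pool.Agent.helper60.RF.TRI

set_option autoImplicit false

namespace Pool.Agent.RF

open NumberField

/-- valuation of `β` at a prime over `l`, `l ∤ n` -/
theorem RDA_v (h1 : TID_stmt) (h2 : LOC_stmt) (h3 : VVM_stmt) (D₀ : ℤ) (F : Type) [Field F] [NumberField F]
    (C : Ctx D₀ F) (p : Pt) (f : ℕ) (hp : IsPt p) (hpD : p.D = D₀ * (f : ℤ) ^ 2) (P : Ideal (𝓞 F))
    (hP : P.IsPrime) (hP0 : P ≠ ⊥) :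
    vv P (be C f p) = 2 * vv P (th C f p) + vv P (C.σ (th C f p)) + 3 * vv P (C.ι (star p.n)) := by
  obtain ⟨p1, p2, p3, p4, p5, p6, p7, p8, p9⟩ := TRI_pt h1 D₀ F C p f hp hpD
  unfold be
  rw [(h3 F P hP hP0).1 _ _ (mul_ne_zero (pow_ne_zero _ p5) (p9 _ p5)) (pow_ne_zero _ p4),
    (h3 F P hP hP0).1 _ _ (pow_ne_zero _ p5) (p9 _ p5), DEL_pow h3 F P hP hP0 _ p5, DEL_pow h3 F P hP hP0 _ p4]

theorem RDA_v5 (h1 : TID_stmt) (h2 : LOC_stmt) (h3 : VVM_stmt) (D₀ : ℤ) (F : Type) [Field F] [NumberField F]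
    (C : Ctx D₀ F) (p : Pt) (f : ℕ) (hp : IsPt p) (hpD : p.D = D₀ * (f : ℤ) ^ 2) (P : Ideal (𝓞 F))
    (hP : P.IsPrime) (hP0 : P ≠ ⊥) (hg : (ct p : 𝓞 F) ∉ P) : 5 ∣ vv P (be C f p) := by
  obtain ⟨l, hl, hlP⟩ := DEL_prime F P hP hP0
  have hlg : ¬ (l : OO) ∣ p.n := by
    intro hh
    obtain ⟨c, hc⟩ := DEL_ct p l hh
    apply hg
    rw [hc, Nat.cast_mul]
    exact P.mul_mem_right _ hlP
  obtain ⟨u0, u1, u2, u3, w1, w2, w3, w4, w5, w6⟩ := h2 D₀ F C p f hp hpD l P hl hP hlP hP0 hlg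
  rw [RDA_v h1 h2 h3 D₀ F C p f hp hpD P hP hP0, w2, w3, w4]
  exact ⟨u1 + u2 + u3, by ring⟩

/-- the Galois condition for one point -/
theorem RDA_g (h1 : TID_stmt) (D₀ : ℤ) (F : Type) [Field F] [NumberField F]
    (C : Ctx D₀ F) (p : Pt) (f : ℕ) (hp : IsPt p) (hpD : p.D = D₀ * (f : ℤ) ^ 2) :
    be C f p ≠ 0 ∧ (∃ g : F, C.s (be C f p : F) = (be C f p : F) ^ 2 * g ^ 5) ∧ (25 : 𝓞 F) ∣ be C f p - 1 := by
  obtain ⟨p1, p2, p3, p4, p5, p6, p7, p8, p9⟩ := TRI_pt h1 D₀ F C p f hp hpD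
  have cs : ∀ x : 𝓞 F, x ≠ 0 → (x : F) ≠ 0 := by
    intro x hx h
    exact hx (by simpa using h)
  have hb : be C f p = (th C f p) ^ 2 * C.σ (th C f p) * (C.ι (star p.n)) ^ 3 := rfl
  refine ⟨?_, ?_, ?_⟩
  · rw [hb]
    exact mul_ne_zero (mul_ne_zero (pow_ne_zero _ p5) (p9 _ p5)) (pow_ne_zero _ p4)
  · refine ⟨(C.ι p.n : F) / ((th C f p : F) * (C.ι (star p.n) : F)), ?_⟩
    rw [← C.hσ, hb]
    have e1 : C.σ ((th C f p) ^ 2 * C.σ (th C f p) * (C.ι (star p.n)) ^ 3) =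
        (C.σ (th C f p)) ^ 2 * C.σ (C.σ (th C f p)) * (C.ι p.n) ^ 3 := by
      rw [map_mul, map_mul, map_pow, map_pow, p7]
    rw [e1]
    have k1 : (C.ι p.n : F) ≠ 0 := cs _ p3
    have k2 : (C.ι (star p.n) : F) ≠ 0 := cs _ p4
    have k3 : (th C f p : F) ≠ 0 := cs _ p5
    have k4 : ((C.σ (th C f p) : 𝓞 F) : F) ≠ 0 := cs _ (p9 _ p5)
    have q1 : (th C f p : F) * ((C.σ (C.σ (th C f p)) : 𝓞 F) : F) = (C.ι p.n : F) ^ 2 * (C.ι (star p.n) : F) := by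
      exact_mod_cast congrArg (algebraMap (𝓞 F) F) p1
    push_cast
    rw [div_pow, ← mul_div_assoc, eq_div_iff (pow_ne_zero _ (mul_ne_zero k3 k2))]
    calc ((C.σ (th C f p) : 𝓞 F) : F) ^ 2 * ((C.σ (C.σ (th C f p)) : 𝓞 F) : F) * (C.ι p.n : F) ^ 3 *
          ((th C f p : F) * (C.ι (star p.n) : F)) ^ 5
        = ((th C f p : F) * ((C.σ (C.σ (th C f p)) : 𝓞 F) : F)) * (((C.σ (th C f p) : 𝓞 F) : F) ^ 2 *
          (C.ι p.n : F) ^ 3 * (th C f p : F) ^ 4 * (C.ι (star p.n) : F) ^ 5) := by ring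
      _ = _ := by rw [q1]; ring
  · have hX : (25 : 𝓞 F) ∣ C.ι p.X - 1 := by
      obtain ⟨c, hc⟩ := hp.X1
      refine ⟨C.ι c, ?_⟩
      have := congrArg C.ι hc
      rw [map_sub, map_one, map_mul] at this
      rw [this]
      congr 1
      exact map_ofNat C.ι 25
    have hn : (25 : 𝓞 F) ∣ C.ι p.n - 1 := by
      obtain ⟨c, hc⟩ := hp.n1
      refine ⟨C.ι c, ?_⟩
      have := congrArg C.ι hc
      rw [map_sub, map_one, map_mul] at this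
      rw [this]
      congr 1
      exact map_ofNat C.ι 25
    have s25 : C.σ (25 : 𝓞 F) = 25 := map_ofNat C.σ 25
    have hn' : (25 : 𝓞 F) ∣ C.ι (star p.n) - 1 := by
      have := map_dvd C.σ hn
      rwa [map_sub, map_one, p6, s25] at this
    have hθ : (25 : 𝓞 F) ∣ th C f p - 1 := by
      unfold th
      have : C.ι p.X + C.ι (25 * p.k) * (f : 𝓞 F) * C.w - 1 = (C.ι p.X - 1) + 25 * (C.ι p.k * (f : 𝓞 F) * C.w) := by
        rw [map_mul, map_ofNat C.ι 25]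
        ring
      rw [this]
      exact dvd_add hX (Dvd.intro _ rfl)
    have hθ' : (25 : 𝓞 F) ∣ C.σ (th C f p) - 1 := by
      have := map_dvd C.σ hθ
      rwa [map_sub, map_one, s25] at this
    rw [hb]
    obtain ⟨a, ha⟩ := hθ
    obtain ⟨b, hb'⟩ := hθ'
    obtain ⟨c, hc⟩ := hn'
    have e1 : th C f p = 1 + 25 * a := by rw [← ha]; ring
    have e2 : C.σ (th C f p) = 1 + 25 * b := by rw [← hb']; ring
    have e3 : C.ι (star p.n) = 1 + 25 * c := by rw [← hc]; ring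
    rw [e2, e3, e1]
    exact ⟨((1 + 25 * a) ^ 2 * (1 + 25 * b) * ((1 + 25 * c) ^ 2 + (1 + 25 * c) + 1) * c + (1 + 25 * a) ^ 2 * b + (2 + 25 * a) * a), by ring⟩

theorem RDA (h1 : TID_stmt) (h2 : LOC_stmt) (h3 : VVM_stmt) (h4 : VV5_stmt) : RDA_stmt := by
  intro D₀ F _ _ C p q f hp hq hpD hqD hct hT
  obtain ⟨b0, ⟨g1, hg1⟩, d1⟩ := RDA_g h1 D₀ F C p f hp hpD
  obtain ⟨c0, ⟨g2, hg2⟩, d2⟩ := RDA_g h1 D₀ F C q f hq hqD
  refine ⟨mul_ne_zero b0 (pow_ne_zero _ c0), ⟨g1 * g2 ^ 4, ?_⟩, ?_, ?_⟩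
  · push_cast
    rw [map_mul, map_pow, hg1, hg2]
    ring
  · apply (h4 F).2 _ (mul_ne_zero b0 (pow_ne_zero _ c0))
    intro P hP hP0
    rw [(h3 F P hP hP0).1 _ _ b0 (pow_ne_zero _ c0), DEL_pow h3 F P hP hP0 _ c0]
    by_cases hgP : ((ct p : ℕ) : 𝓞 F) ∈ P
    · have t0 := hT P hP hgP 0
      have t1 := hT P hP hgP 1
      simp only [Function.iterate_zero, id, Function.iterate_succ, Function.comp] at t0 t1
      rw [C.σι, C.σι] at t1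
      rw [RDA_v h1 h2 h3 D₀ F C p f hp hpD P hP hP0, RDA_v h1 h2 h3 D₀ F C q f hq hqD P hP hP0, t0.1, t1.1, t1.2]
      exact ⟨2 * vv P (th C f q) + vv P (C.σ (th C f q)) + 3 * vv P (C.ι (star q.n)), by ring⟩
    · obtain ⟨a, ha⟩ := RDA_v5 h1 h2 h3 D₀ F C p f hp hpD P hP hP0 hgP
      obtain ⟨b, hb⟩ := RDA_v5 h1 h2 h3 D₀ F C q f hq hqD P hP hP0 (by rw [← hct]; exact hgP)
      exact ⟨a + 4 * b, by rw [ha, hb]; ring⟩
  · obtain ⟨a, ha⟩ := d1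
    obtain ⟨b, hb⟩ := d2
    have e1 : be C f p = 1 + 25 * a := by rw [← ha]; ring
    have e2 : be C f q = 1 + 25 * b := by rw [← hb]; ring
    rw [e1, e2]
    exact ⟨a * (1 + 25 * b) ^ 4 + b * ((1 + 25 * b) ^ 3 + (1 + 25 * b) ^ 2 + (1 + 25 * b) + 1), by ring⟩

theorem RDG (h1 : TID_stmt) (h2 : LOC_stmt) (h3 : VVM_stmt) (h4 : VV5_stmt) : RDG_stmt := by
  intro D₀ F _ _ C p f hp hpD hct
  obtain ⟨b0, ⟨g1, hg1⟩, d1⟩ := RDA_g h1 D₀ F C p f hp hpD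
  refine ⟨b0, ⟨g1, hg1⟩, ?_, ?_⟩
  · apply (h4 F).2 _ b0
    intro P hP hP0
    apply RDA_v5 h1 h2 h3 D₀ F C p f hp hpD P hP hP0
    intro hh
    rw [hct] at hh
    apply hP.ne_top
    rw [Ideal.eq_top_iff_one]
    simpa using hh
  · obtain ⟨a, ha⟩ := d1
    exact ⟨a, by rw [← ha]; ring⟩

end Pool.Agent.RF
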