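import Pool.Agent.helper60.RF.Defs

set_option autoImplicit false

/-!
# RF, block B: from points to classes

Every `def X_stmt : Prop` is a row (file `Pool/Agent/<seat>/RF/X.lean`, namespace `Pool.Agent.RF`,
`theorem X : X_stmt`, auxiliary lemmas `X_...`); the statements named in the docstring may be taken as
hypotheses.  Notation in the proofs: `K = 25 k`, `'` = `star`, `τ = σ σ`, `θ = th C f p`, `β = be C f p`.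
-/

namespace Pool.Agent.RF

open NumberField

/-! ## Context -/

/-- the mirror field of `D` with its ring of integers -/
structure Ctx (D : ℤ) (F : Type) [Field F] [NumberField F] where
  s : F ≃+* F
  σ : 𝓞 F ≃+* 𝓞 F
  ι : OO →+* 𝓞 F
  w : 𝓞 F
  E1 : 𝓞 F →+* ℂ
  E2 : 𝓞 F →+* ℂ
  hσ : ∀ x : 𝓞 F, ((σ x : 𝓞 F) : F) = s (x : F)
  σι : ∀ z : OO, σ (ι z) = ι (star z)
  ww : w ^ 2 = -(ι w2 * (D : 𝓞 F))
  σw : ι ph * σ w = w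
  ind : ∀ a b : OO, ι a + ι b * w = 0 → a = 0 ∧ b = 0
  co : ∀ x : 𝓞 F, ∃ a b : OO, 10 * x = ι a + ι b * w
  z5 : ∀ x y : 𝓞 F, x ^ 5 = y ^ 5 → x = y
  E1ι : ∀ z : OO, E1 (ι z) = (va z : ℂ)
  E12 : ∀ x : 𝓞 F, E1 (σ x) = E2 x
  E1c : ∀ x : 𝓞 F, E1 (σ (σ x)) = (starRingEnd ℂ) (E1 x)
  E2c : ∀ x : 𝓞 F, E2 (σ (σ x)) = (starRingEnd ℂ) (E2 x)

variable {D : ℤ} {F : Type} [Field F] [NumberField F]

/-- `θ = X + K f w` -/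
noncomputable def th (C : Ctx D F) (f : ℕ) (p : Pt) : 𝓞 F :=
  C.ι p.X + C.ι (25 * p.k) * (f : 𝓞 F) * C.w

/-- `β = θ² θ^σ ν'³` -/
noncomputable def be (C : Ctx D F) (f : ℕ) (p : Pt) : 𝓞 F :=
  (th C f p) ^ 2 * C.σ (th C f p) * (C.ι (star p.n)) ^ 3

open Classical in
/-- the valuation -/
noncomputable def vv (P : Ideal (𝓞 F)) (x : 𝓞 F) : ℕ :=
  (UniqueFactorizationMonoid.normalizedFactors (Ideal.span {x})).count P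

/-- the content of `n` -/
def ct (p : Pt) : ℕ := Int.gcd p.n.re p.n.im

/-- the part of `f` coprime to `g` -/
def f1 (f g : ℕ) : ℕ := ∏ l ∈ f.primeFactors.filter (fun l => ¬ l ∣ g), l ^ (f.factorization l)

/-- the same type at the primes above `g` -/
def SameT (C : Ctx D F) (f g : ℕ) (p q : Pt) : Prop :=
  ∀ P : Ideal (𝓞 F), P.IsPrime → (g : 𝓞 F) ∈ P → ∀ j : ℕ,
    vv P ((⇑C.σ)^[j] (th C f p)) = vv P ((⇑C.σ)^[j] (th C f q)) ∧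
    vv P ((⇑C.σ)^[j] (C.ι p.n)) = vv P ((⇑C.σ)^[j] (C.ι q.n))

/-- `z = δ / g`: the element with `δ⁵ (n n₁)'² = Θ² Θ^σ`, `Θ = θ^τ θ₁` -/
def Zr (C : Ctx D F) (f g : ℕ) (p q : Pt) (z : 𝓞 F) : Prop :=
  z ^ 5 * (g : 𝓞 F) ^ 5 * (C.ι (star p.n * star q.n)) ^ 2 =
    (C.σ (C.σ (th C f p)) * th C f q) ^ 2 * C.σ (C.σ (C.σ (th C f p)) * th C f q)

/-- the two classes are equal -/
def Eqv (C : Ctx D F) (f : ℕ) (p q : Pt) : Prop :=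
  ∃ γ : F, (be C f p : F) = (be C f q : F) * γ ^ 5

/-! ## Rows: the context -/

/-- **CTA** (short to medium).  Basis of the mirror field.
Proof. `r` is not rational (`r² = 5`), and `w ≠ a + b r`: otherwise `w² = (a + b r)²`, compare coefficients of `1, r` in
`ℚ(r)` (`1, r` independent): `-(r (1 + r) / 2) D = -(5 + r) D / 2`, so `a² + 5 b² = - 5 D / 2 < 0`, impossible.  So `1, r, w, r w` are
linearly independent over `ℚ` (a relation `A + B w = 0`, `A, B ∈ ℚ(r)`, `B ≠ 0` gives `w = - A / B ∈ ℚ(r)`), and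
`finrank = 4`. -/
def CTA_stmt : Prop := ∀ (D : ℤ) (F : Type) [Field F] [NumberField F] (s : F ≃+* F) (r w : F), 0 < D →
  Mir D F s r w → (∀ x : F, ∃ a b c d : ℚ, x = a + b * r + (c + d * r) * w) ∧
  (∀ a b c d : ℚ, (a : F) + b * r + (c + d * r) * w = 0 → a = 0 ∧ b = 0 ∧ c = 0 ∧ d = 0)

/-- **CTI** (short to medium).  Integral elements of `ℚ(r)`.
Proof. `u = a + b r`, `u₁ = s u = a - b r` are integral, so `2 a = u + u₁` and `a² - 5 b² = u u₁` are rational and integral, so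
integers `t, m`.  `5 (2 b)² = t² - 4 m` is an integer, so `2 b` is an integer `v` (a rational number whose square times 5 is an
integer: `5` squarefree), `t² - 5 v² = 4 m` so `t ≡ v mod 2`; `a + b r = (t - v)/2 + v (1 + r)/2`. -/
def CTI_stmt : Prop := ∀ (D : ℤ) (F : Type) [Field F] [NumberField F] (s : F ≃+* F) (r w : F), 0 < D →
  Mir D F s r w → ∀ a b : ℚ, IsIntegral ℤ ((a : F) + b * r) →
  ∃ z : OO, (a : F) + b * r = (z.re : F) + (z.im : F) * ((1 + r) / 2)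

/-- **SQO** (short, PURE).  `ℤ[φ]` modulo a squarefree integer prime to 5 is reduced.
Proof. It is enough to take a prime `l ≠ 5`, `l ∣ D` (then `l ∣ t` for all of them, and they are pairwise coprime): `t = a + b φ`,
`t² = (a² + b²) + b (2 a + b) φ`.  If `l ∣ b` then `l ∣ a²`.  Otherwise `b ≡ - 2 a`, `a² + b² ≡ 5 a²`, so `l ∣ a`, `l ∣ b`. -/
def SQO_stmt : Prop := ∀ (D : ℤ), Squarefree D → ¬ (5 : ℤ) ∣ D → ∀ t : OO, (D : OO) ∣ t ^ 2 → (D : OO) ∣ t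

/-- **CTB** (medium; hypotheses CTA, CTI, SQO).  Coordinates of integers.
Proof. `x = A + B w`, `A, B ∈ ℚ(r)` (CTA); `s s w = - w`, `s s r = r`, so `x + s s x = 2 A` is integral, CTI: `= ι a₁`.
`x - s s x = 2 B w =: y w`, `y = 2 B`; `(y w)² = - y² √5 φ D` is integral in `ℚ(r)`; `φ` is a unit (`φ⁻¹ = φ - 1`), so `m = √5 D y²` is
integral.  `t = √5 D y` has `t² = √5 D m` (integral), so `t` is integral, `t = ι t₀` (CTI) with `D ∣ t₀²`, SQO: `t₀ = D t₁`, so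
`√5 y = ι t₁`, `5 y = ι (r5 t₁)`.  `10 x = 5 (x + s s x) + 5 (x - s s x) = ι (5 a₁) + ι (r5 t₁) w`. -/
def CTB_stmt : Prop := ∀ (D : ℤ) (F : Type) [Field F] [NumberField F] (s : F ≃+* F) (r w : F), 0 < D → Squarefree D →
  ¬ (5 : ℤ) ∣ D → Mir D F s r w → ∀ x : F, IsIntegral ℤ x → ∃ a b : OO,
    10 * x = ((a.re : F) + a.im * ((1 + r) / 2)) + ((b.re : F) + b.im * ((1 + r) / 2)) * w

/-- **CTZ** (medium; hypothesis CTA).  No fifth roots of unity.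
Proof. Let `x⁵ = y⁵`, `x ≠ y` (so `y ≠ 0`), `ζ = x / y`, `ζ⁵ = 1`, `ζ ≠ 1`, a primitive 5th root of unity in `F`.  `u = ζ + ζ⁻¹`,
`u² + u = 1`, so `(2 u + 1)² = 5`, `2 u + 1 = ± r`.  Replacing `ζ` by `ζ²` we may assume `2 u + 1 = r`.
`v = ζ - ζ⁻¹`: `v² = ζ² + ζ⁻² - 2 = u² - 4 = - u - 3 = - (r + 5) / 2 = - r (1 + r) / 2`, so `w² = D v²`, `(w / v)² = D`.  Let `w / v = A + B w`
with `A, B ∈ ℚ(r)` (CTA).  `(A + B w)² = A² + B² w² + 2 A B w = D ∈ ℚ(r)`: `A B = 0`.  If `B = 0`: `A² = D`, `A = a + b r`: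
`2 a b = 0`, `D = a²` or `D = 5 b²` with rational `a, b`: `D` squarefree, so `D = 1` or `5`: impossible.  If `A = 0`: `1 / v = B ∈ ℚ(r)`, `v ∈ ℚ(r)`,
`v = a + b r`, `v² = -(5 + r)/2`: `a² + 5 b² = - 5 / 2`, impossible. -/
def CTZ_stmt : Prop := ∀ (D : ℤ) (F : Type) [Field F] [NumberField F] (s : F ≃+* F) (r w : F), 1 < D → Squarefree D →
  D ≠ 5 → Mir D F s r w → ∀ x y : F, x ^ 5 = y ^ 5 → x = y

/-- **CTX** (medium; hypotheses CTA, CTB, CTZ).  The context exists.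
Proof. `σ` = restriction of `s` to integers; `ι z = z.re + z.im (1 + r)/2` (`QuadraticAlgebra.lift`; `(1 + r)/2` is a root of
`x² - x - 1`); `w` is integral (`w²` is).  `σι`: `s ((1 + r)/2) = (1 - r)/2` and `star ⟨a, b⟩ = ⟨a + b, - b⟩`.  `ww`, `σw`: from `Mir`
(`w2 = 2 + φ = √5 φ`).  `ind`: CTA.  `co`: CTB.  `z5`: CTZ.  `E1`: take any embedding `F → ℂ`; `r ↦ ± √5`; if `-` compose with `s`.
`E1 w ^ 2 = - va w2 * D < 0` so `E1 w` is purely imaginary, `conj (E1 w) = - E1 w = E1 (σ σ w)`; with CTA (`x = A + B w`, `A, B` in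
`ℚ(r)`, real under `E1`) this gives `E1c`.  `E2 = E1 ∘ σ`, `E2c` follows from `E1c` for `σ x`. -/
def CTX_stmt : Prop := ∀ (D : ℤ) (F : Type) [Field F] [NumberField F] (s : F ≃+* F) (r w : F), 1 < D → Squarefree D →
  ¬ (5 : ℤ) ∣ D → Mir D F s r w → ∃ C : Ctx D F, C.s = s ∧ ((C.w : 𝓞 F) : F) = w

/-! ## Rows: one point -/

/-- **TRA** (short to medium, PURE).  The relations of the parametrisation.
Proof. (1): `star` of `e2` is `n' M' = φ' X K' - X' K`; multiply by `φ` (`φ φ' = -1`) and add `e2`.  (2): `norm (n M) = (n M)(n M)'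
= (φ X' K - X K')(φ' X K' - X' K) = - (φ X'² K² + φ' X² K'²)`; with `X'² = n'² n - w2' D K'²`, `w2' = - √5 φ'`:
`φ X'² K² = φ n'² n K² - √5 D N(K)²` (`φ φ' = -1`), the sum with its conjugate is `n n' (φ n' K² + φ' n K'²)`; cancel `n n' ≠ 0`
(`n ≠ 0` because `n ≡ 1 mod 25`).  (3): `K (X X' + √5 D K K') ≡ X X' K - X² K'/φ = (X / φ)(φ X' K - X K') = (X/φ) n M ≡ 0 mod n`
(`√5 D K² = (n² n' - X²)/φ`), `K = 25 k` is coprime to `n` (`n ≡ 1 mod 25`). -/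
def TRA_stmt : Prop := ∀ p : Pt, IsPt p →
  p.n * p.M + ph * star p.n * star p.M = -(2 * p.X * star (25 * p.k)) ∧
  p.M * star p.M = -(ph * star p.n * (25 * p.k) ^ 2 + star (ph * star p.n * (25 * p.k) ^ 2)) ∧
  p.n ∣ p.X * star p.X + r5 * (p.D : OO) * ((25 * p.k) * star (25 * p.k))

/-- **OCP** (short to medium, PURE; hypothesis TRA).  A prime of `ℤ[φ]` dividing `n` above a prime `l` which does not divide `n`.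
Proof. `5 ∉ 𝔭` because `n ∈ 𝔭`, `n - 1 ∈ 25 OO`.  `n' ∉ 𝔭`: otherwise `n - n' = n.im √5 ∈ 𝔭`, so `n.im ∈ 𝔭` (`√5 √5 = 5 ∉ 𝔭`),
`l ∣ n.im` (`𝔭 ∩ ℤ = l ℤ`, otherwise `1 ∈ 𝔭`), `n.re = n - n.im φ ∈ 𝔭`, `l ∣ n.re`, so `l ∣ n`.  `k ∉ 𝔭`, `2 ∉ 𝔭` (coprime to `n`).
If `X ∈ 𝔭` or `X' ∈ 𝔭`: TRA (1) (resp. its conjugate `n' M' + φ' n M = - 2 X' K`) gives `n' M' ∈ 𝔭`, `M' ∈ 𝔭`; TRA (2):
`φ n' K² + φ' n K'² ∈ 𝔭`, so `K ∈ 𝔭`, impossible.  `D ∈ 𝔭`: `e1` gives `X² ∈ 𝔭`. -/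
def OCP_stmt : Prop := ∀ p : Pt, IsPt p → ∀ (l : ℕ) (P : Ideal OO), l.Prime → P.IsPrime → (l : OO) ∈ P → ¬ (l : OO) ∣ p.n →
  (p.n ∈ P ∨ star p.n ∈ P) → ¬ (p.n ∈ P ∧ star p.n ∈ P) ∧ 2 * p.X ∉ P ∧ 2 * star p.X ∉ P ∧ (p.D : OO) ∉ P

/-- **GDV** (short to medium, PURE; hypothesis TRA).  The content divides `f`.
Proof. `g = ct p` divides `n`, `n'`.  `g` is coprime to `2, 5, k, k'` (in `OO`; they are coprime to `n`).  TRA (1): `g ∣ 2 X K'`, so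
`g ∣ X`.  `e1`: `g² ∣ w2 D K²`, `w2 w2' = 5`, so `g² ∣ D` in `OO`, so in `ℤ`; `D = D₀ f²`, `D₀` squarefree: `g ∣ f`. -/
def GDV_stmt : Prop := ∀ p : Pt, IsPt p → ∀ (D₀ : ℤ) (f : ℕ), Squarefree D₀ → p.D = D₀ * (f : ℤ) ^ 2 →
  ct p ∣ f ∧ (ct p : OO) ∣ p.X ∧ (ct p : OO) ∣ p.n ∧ 0 < ct p

/-- **POS** (short).  `n` is totally positive.  Proof. `va` and `vb` of `e1`: `va(n)² vb(n) = va(X)² + va(w2) D va(K)² > 0` so `vb n > 0`, and the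
same with `vb`: `vb(n)² va(n) > 0` (`va (star z) = vb z`; `va w2, vb w2 > 0`; `k ≠ 0`). -/
def POS_stmt : Prop := ∀ p : Pt, IsPt p → 0 < va p.n ∧ 0 < vb p.n ∧ 0 < p.n.norm ∧ (p.n.norm : ℝ) = va p.n * vb p.n

/-- **TID** (short to medium; hypothesis TRA).  Identities in the mirror field.
Proof. `σ w = ι(φ⁻¹) w`, `σ σ w = - w` (`φ φ' = -1`), `w² = - ι(w2) D₀`.  `θ τθ = ι(X)² - ι(K)² f² w² = ι(X² + w2 D K²)`.
`θ σ³θ = (X + K f w)(X' - K' f w / φ) = [X X' + √5 D K K'] + (X' K - X K'/φ) f w` (in `ι`), and `φ (X' K - X K' / φ) = n M`; the first bracket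
is divisible by `n` (TRA 3). -/
def TID_stmt : Prop := ∀ (D₀ : ℤ) (F : Type) [Field F] [NumberField F] (C : Ctx D₀ F) (p : Pt) (f : ℕ), IsPt p →
  p.D = D₀ * (f : ℤ) ^ 2 →
  th C f p * C.σ (C.σ (th C f p)) = C.ι (p.n ^ 2 * star p.n) ∧
  C.ι p.n ∣ th C f p * C.σ (C.σ (C.σ (th C f p))) ∧
  th C f p + C.σ (C.σ (th C f p)) = C.ι (2 * p.X) ∧ th C f p ≠ 0 ∧
  (∀ x : 𝓞 F, C.σ (C.σ (C.σ (C.σ x))) = x)

/-- **VVM** (short to medium, PURE).  Valuations.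
Proof. `normalizedFactors_mul`, `Ideal.span_singleton_mul_span_singleton`; divisibility of ideals; `vv = 0` iff `x ∉ P`
(`P` prime, nonzero: `P ∣ (x)` iff `x ∈ P`). -/
def VVM_stmt : Prop := ∀ (F : Type) [Field F] [NumberField F] (P : Ideal (𝓞 F)), P.IsPrime → P ≠ ⊥ →
  (∀ x y : 𝓞 F, x ≠ 0 → y ≠ 0 → vv P (x * y) = vv P x + vv P y) ∧
  (∀ x : 𝓞 F, x ≠ 0 → (0 < vv P x ↔ x ∈ P)) ∧
  (∀ x y : 𝓞 F, y ≠ 0 → x ∣ y → vv P x ≤ vv P y)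

/-- **VV5** (short to medium, PURE).  Divisibility and fifth powers from valuations.
Proof. (1) multisets: `normalizedFactors (span x) ≤ normalizedFactors (span y)` from the counts, so `span x ∣ span y`.  (2) the multiset of
prime factors is `5 • s`; `I = s.prod`. -/
def VV5_stmt : Prop := ∀ (F : Type) [Field F] [NumberField F],
  (∀ x y : 𝓞 F, x ≠ 0 → y ≠ 0 → (∀ P : Ideal (𝓞 F), P.IsPrime → P ≠ ⊥ → vv P x ≤ vv P y) → x ∣ y) ∧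
  (∀ x : 𝓞 F, x ≠ 0 → (∀ P : Ideal (𝓞 F), P.IsPrime → P ≠ ⊥ → 5 ∣ vv P x) →
    ∃ I : Ideal (𝓞 F), Ideal.span {x} = I ^ 5)

/-- **LOC** (medium; hypotheses OCP, TID, VVM).  The local structure at a prime above `l`, `l ∤ n`.
Proof. Let `x_j = vv P (σ^j θ)`, `y₀ = vv P (ι n)`, `y₁ = vv P (ι n')`.  TID (1) and its image under `σ` (VVM): `x₀ + x₂ = 2 y₀ + y₁`,
`x₁ + x₃ = 2 y₁ + y₀`.  TID (2) and its images under `σ, σ², σ³` (`σ⁴ = 1`): `y₀ ≤ x₀ + x₃`, `y₁ ≤ x₁ + x₀`, `y₀ ≤ x₂ + x₁`, `y₁ ≤ x₃ + x₂`.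
If `y₀ = y₁ = 0` all `x_j` are 0, `c = 0`.  Otherwise apply OCP to `P.comap ι`: exactly one of `y₀, y₁` is positive, and `ι(2X), ι(2X') ∉ P`, so
`θ + τθ = ι(2X) ∉ P`: `x₀ = 0 ∨ x₂ = 0`; applying `σ`: `x₁ = 0 ∨ x₃ = 0`.  The rest is `omega`: e.g. `y₀ = y > 0`, `y₁ = 0`, `x₂ = 0`: `x₀ = 2y`,
`y ≤ x₂ + x₁ = x₁`, `x₁ = y`, `x₃ = 0`, `c = (0, 0, y, 0)`; `x₀ = 0`: `x₂ = 2y`, `y ≤ x₃`, `x₃ = y`, `x₁ = 0`, `c = (y, 0, 0, 0)`;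
`y₁ = y > 0`, `y₀ = 0`: `x₀ + x₂ = y`, `x₁ + x₃ = 2 y`; `x₁ = 0`: `y ≤ x₀`, `c = (0, y, 0, 0)`; `x₃ = 0`: `y ≤ x₂`, `c = (0, 0, 0, y)`. -/
def LOC_stmt : Prop := ∀ (D₀ : ℤ) (F : Type) [Field F] [NumberField F] (C : Ctx D₀ F) (p : Pt) (f : ℕ), IsPt p →
  p.D = D₀ * (f : ℤ) ^ 2 → ∀ (l : ℕ) (P : Ideal (𝓞 F)), l.Prime → P.IsPrime → (l : 𝓞 F) ∈ P → P ≠ ⊥ → ¬ (l : OO) ∣ p.n →
  ∃ c₀ c₁ c₂ c₃ : ℕ, vv P (C.ι p.n) = c₀ + c₂ ∧ vv P (C.ι (star p.n)) = c₁ + c₃ ∧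
    vv P (th C f p) = c₁ + 2 * c₂ ∧ vv P (C.σ (th C f p)) = c₂ + 2 * c₃ ∧
    vv P (C.σ (C.σ (th C f p))) = c₃ + 2 * c₀ ∧ vv P (C.σ (C.σ (C.σ (th C f p)))) = c₀ + 2 * c₁

/-- **RDA** (medium; hypotheses TID, LOC, VVM, VV5).  Two points of the same type give a radical.
Proof. `g = ct p = ct q`.  `b = β_p β_q⁴ ≠ 0`.  `s b = b² γ⁵`: `σ β = β² (ν / (θ ν'))⁵` (in `F`; `σβ = (σθ)² (τθ) ν³`, `β² = θ⁴ (σθ)² ν'⁶`,
`θ τθ = ν² ν'`).  Ideal: VV5 (2).  Let `P` be a nonzero prime, `l ∈ P` a prime number (exists: `P ∩ ℤ ≠ 0`).  If `l ∤ g` then `l ∤ n_p, n_q`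
in `OO` (`l ∣ n` iff `l ∣ ct`), LOC: `vv P β = 2 (c₁ + 2c₂) + (c₂ + 2c₃) + 3 (c₁ + c₃) = 5 (c₁ + c₂ + c₃)`.  If `l ∣ g`, `g ∈ P`,
`SameT` (`j = 0, 1` for `θ`, `j = 1` for `n`): `vv P β_p = vv P β_q`, the sum is `5 vv P β_q`.  `b ≡ 1 mod 25`: `θ ≡ ι X ≡ 1`, `n' ≡ 1`. -/
def RDA_stmt : Prop := ∀ (D₀ : ℤ) (F : Type) [Field F] [NumberField F] (C : Ctx D₀ F) (p q : Pt) (f : ℕ), IsPt p → IsPt q →
  p.D = D₀ * (f : ℤ) ^ 2 → q.D = D₀ * (f : ℤ) ^ 2 → ct p = ct q → SameT C f (ct p) p q →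
  Rad C.s (be C f p * be C f q ^ 4)

/-- **RDG** (short; hypotheses TID, LOC, VVM, VV5; as RDA).  A good point gives a radical.
Proof. As RDA with `b = β_p`, `ct p = 1`: no `l` divides `n`. -/
def RDG_stmt : Prop := ∀ (D₀ : ℤ) (F : Type) [Field F] [NumberField F] (C : Ctx D₀ F) (p : Pt) (f : ℕ), IsPt p →
  p.D = D₀ * (f : ℤ) ^ 2 → ct p = 1 → Rad C.s (be C f p)

/-! ## Rows: pairs of points -/

/-- **DEL** (medium; hypotheses TID, LOC, VVM, VV5, GDV).  The element `z = δ / g`.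
Proof. In `F`: `β_p = β_q γ⁵`, `δ = ν_q (ν_p ν_p') / (ν_q ν_q') / γ`.  `δ⁵ = ν_q⁵ (ν_p ν_p')⁵ β_q / ((ν_q ν_q')⁵ β_p)`.  With
`(ν ν')⁵ / β = (τθ)² (σ³θ) / ν'²` (from `θ τθ = ν² ν'`, `σθ σ³θ = ν'² ν`) for `p` and `β_q ν_q⁵ / (ν_q ν_q')⁵ = θ_q² σθ_q ν_q'³ / ν_q'⁵`:
`δ⁵ = (τθ_p)² (σ³θ_p) θ_q² (σθ_q) / (ν_p' ν_q')² = Θ² σΘ / (ν_p' ν_q')²`.  Put `z = δ / g`; the equation `Zr` holds in `F`.
Integrality: it is enough that `z⁵` is integral: `g⁵ (ν_p' ν_q')² ∣ Θ² σΘ` by VV5 (1).  For `P` above `l ∤ g`: LOC for both points: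
`vv(Θ² σΘ) = 2 (c₃ + 2c₀ + d₁ + 2d₂) + (c₀ + 2c₁ + d₂ + 2d₃) = 5 c₀ + 5 d₂ + 2 (c₁ + c₃) + 2 (d₁ + d₃)`, and `vv g = 0`.  For `P ∋ g`: by `SameT`
`vv(Θ² σΘ) = 2 (x₂ + x₀) + (x₃ + x₁) = 2 (2 y₀ + y₁) + (2 y₁ + y₀) = 5 y₀ + 4 y₁`, and `vv(g⁵ (ν_p' ν_q')²) = 5 vv g + 4 y₁`, `vv g ≤ y₀`
(`g ∣ n`).  Then `z ∈ F` with `z⁵` integral is integral.  (2) Fifth powers: `(z τz g²)⁵ (n_p' n_q')⁴ = (Θ τΘ)² σ(Θ τΘ)`, `Θ τΘ = n_p² n_p' n_q² n_q'`; so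
`(z τz g²)⁵ = ι (n_p n_q)⁵`, `z5`. -/
def DEL_stmt : Prop := ∀ (D₀ : ℤ) (F : Type) [Field F] [NumberField F] (C : Ctx D₀ F) (p q : Pt) (f : ℕ), Squarefree D₀ →
  IsPt p → IsPt q → p.D = D₀ * (f : ℤ) ^ 2 → q.D = D₀ * (f : ℤ) ^ 2 → ct p = ct q → SameT C f (ct p) p q → Eqv C f p q →
  ∃ z : 𝓞 F, Zr C f (ct p) p q z ∧ z * C.σ (C.σ z) * (ct p : 𝓞 F) ^ 2 = C.ι (p.n * q.n)

/-- **TRI** (short; hypothesis TID).  Three points.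
Proof. `z5`: both sides to the fifth power, times `(n_o')⁴ (n_p' n_q')² g⁵ ≠ 0`: `τ` of `Zr o p` times `Zr o q`:
`(τz₁ z₂ g²)⁵ n_o'⁴ (n_p' n_q')² = (θ_o τθ_o · τθ_p θ_q)² σ(...) = (n_o² n_o')² (n_o'² n_o) Θ² σΘ`, `Θ = τθ_p θ_q`, so
`(τz₁ z₂ g²)⁵ (n_p' n_q')² = n_o⁵ Θ² σΘ = n_o⁵ z₃⁵ g⁵ (n_p' n_q')²`. -/
def TRI_stmt : Prop := ∀ (D₀ : ℤ) (F : Type) [Field F] [NumberField F] (C : Ctx D₀ F) (o p q : Pt) (f g : ℕ), 0 < g →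
  IsPt o → IsPt p → IsPt q → o.D = D₀ * (f : ℤ) ^ 2 → p.D = D₀ * (f : ℤ) ^ 2 → q.D = D₀ * (f : ℤ) ^ 2 →
  ∀ z₁ z₂ z₃ : 𝓞 F, Zr C f g o p z₁ → Zr C f g o q z₂ → Zr C f g p q z₃ →
  (g : 𝓞 F) * (C.σ (C.σ z₁) * z₂) = C.ι o.n * z₃

/-- **NZB** (medium; hypothesis TID).  `z` is not in `ℤ[φ]` for different points.
Proof. Suppose `τ z = z`.  `Zr` and its `τ`: `Θ² σΘ = (τΘ)² σ³Θ`, all nonzero.  `ρ = Θ / τΘ`: `ρ² σρ = 1`, `σρ = ρ⁻²`, `τρ = ρ⁴`, and `τρ = ρ⁻¹`, so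
`ρ⁵ = 1`, `Θ⁵ = (τΘ)⁵`, `z5`: `Θ = τΘ`.  `Θ = (X_p - K_p f w)(X_q + K_q f w)`: the coefficient of `w` (use `ind` for `Θ - τΘ`):
`X_p K_q = X_q K_p` (`f ≠ 0`, as `D > 0`).  `k_p` is coprime to `n_p n_p'` so to `X_p` (`e1`: `X² ≡ n² n' mod k`), so `k_p ∣ k_q`, `k_q ∣ k_p` in the same
way.  By hypothesis `k_p = k_q ≠ 0`, `X_p = X_q`, so `n_p² n_p' = n_q² n_q'` (`e1`); `norm` gives equal norms, multiply by the conjugate: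
`n_p³ = n_q³ · (norm ratio)`: precisely `n² n' = n · norm n`, so `n_p = n_q`; `M` from `e2`. -/
def NZB_stmt : Prop := ∀ (D₀ : ℤ) (F : Type) [Field F] [NumberField F] (C : Ctx D₀ F) (p q : Pt) (f g : ℕ), 0 < g →
  IsPt p → IsPt q → p.D = D₀ * (f : ℤ) ^ 2 → q.D = D₀ * (f : ℤ) ^ 2 → (p.k ∣ q.k → p.k = q.k) → p ≠ q →
  ∀ z : 𝓞 F, Zr C f g p q z → C.σ (C.σ z) ≠ z

/-- **LAB** (medium, PURE).  Labels modulo a prime `l ≠ 5` (also `l = 2` is allowed).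
Proof. `A = OO / (l)` is reduced (SQO argument) and finite, so a product of at most two fields `k_i`, or: take the maximal ideals `𝔭 ∋ l` of `OO` (one
or two; `𝔭 ∩ 𝔭' = (l)`).  For each field `k = OO/𝔭` (`5 ≠ 0` in `k`): `H(t) = 5 t⁴ + 10 t² W + W²` has at most 4 roots in `k`.  Label of `(a, b)` at
`𝔭`: `5` if `a, b ∈ 𝔭`; `4` if `b ∈ 𝔭`, `a ∉ 𝔭`; if `b ∉ 𝔭` the number in `{0, .., 3}` of the root `a / b` (the hypothesis gives `b · b⁴ H(a/b) = 0`), in a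
fixed enumeration.  Equal labels give `a b₁ - a₁ b ∈ 𝔭`: label 5, 4: clear; otherwise `a/b = a₁/b₁`.  For all `𝔭 ∋ l`: `l ∣ a b₁ - a₁ b`. -/
def LAB_stmt : Prop := ∀ (l : ℕ) (W : OO), l.Prime → l ≠ 5 → ∃ lab : OO × OO → Fin 36, ∀ x y : OO × OO,
  (l : OO) ∣ x.2 * (5 * x.1 ^ 4 + 10 * x.1 ^ 2 * x.2 ^ 2 * W + x.2 ^ 4 * W ^ 2) →
  (l : OO) ∣ y.2 * (5 * y.1 ^ 4 + 10 * y.1 ^ 2 * y.2 ^ 2 * W + y.2 ^ 4 * W ^ 2) →
  lab x = lab y → (l : OO) ∣ x.1 * y.2 - y.1 * x.2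

/-- **YDV** (medium; hypotheses TRA, TID, OCP, GDV).  The coefficient of `w` of `z⁵` is divisible by `l^e`.
Proof. `10 z = ι a + ι b w`, `(10 z)⁵ = ι A + ι B w` with `B = b (5 a⁴ + 10 a² b² W + b⁴ W²)`, `W = w² = - w2 D₀`.  `Zr`:
`(10 z)⁵ g⁵ (n_p' n_q')² = 10⁵ Θ² σΘ` and `Θ ≡ X_p X_q mod f`, precisely `Θ = ι u + ι v f w`, so `Θ² σΘ = ι u₁ + ι v₁ f w` (`f² w²`, and `σ w = ι(φ - 1) w`...): by `ind`
`f ∣ B g⁵ (n_p' n_q')²`.  `l^e ∣ f`, `l ∤ g`; `l` is coprime to `n_p', n_q'` in `OO`: a prime `𝔭 ∋ l`, `n'` has `D ∈ 𝔭` (`l ∣ f ∣ D`), against OCP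
(`l ∤ n` because `l ∤ ct`).  So `l^e ∣ B`.  (2) `(10 z)(10 τz) = a² - b² W`, times `g²` it is `100 n_p n_q`: so `a² - b² W` is coprime to `l`
(`l ≠ 2, 5`); if `l ∣ b` then `a` is coprime to `l`, so `5 a⁴ + b (...)` is coprime to `l` and `l^e ∣ b`. -/
def YDV_stmt : Prop := ∀ (D₀ : ℤ) (F : Type) [Field F] [NumberField F] (C : Ctx D₀ F) (p q : Pt) (f : ℕ), Squarefree D₀ →
  IsPt p → IsPt q → p.D = D₀ * (f : ℤ) ^ 2 → q.D = D₀ * (f : ℤ) ^ 2 → ct p = ct q → ∀ z : 𝓞 F, Zr C f (ct p) p q z →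
  z * C.σ (C.σ z) * (ct p : 𝓞 F) ^ 2 = C.ι (p.n * q.n) →
  ∀ (a b : OO), 10 * z = C.ι a + C.ι b * C.w → ∀ (l e : ℕ), l.Prime → 1 ≤ e → l ^ e ∣ f → ¬ l ∣ ct p →
  IsCoprime (l : OO) p.n ∧
  (l : OO) ^ e ∣ b * (5 * a ^ 4 + 10 * a ^ 2 * b ^ 2 * (-(w2 * (D₀ : OO))) + b ^ 4 * (-(w2 * (D₀ : OO))) ^ 2) ∧
  ((l : OO) ∣ b → (l : OO) ^ e ∣ b)

/-- **SPC** (short to medium, PURE).  Spacing.
Proof. `|Im (conj u_i u_j)| ≤ ‖u_i‖ ‖u_j‖`, so `V ≤ ‖u_i‖ ‖u_j‖ ‖v_i‖ ‖v_j‖ |sin (arg v_j - arg v_i)| ≤ A |sin (..)|` (`Im (conj v_i v_j) = ‖v_i‖ ‖v_j‖ sin`).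
Let `x_i = arg v_i` reduced modulo `π` to `[0, π)`; `|sin (x_i - x_j)| ≤ |x_i - x_j|`, so the points `x_i` have distance at least `V / A`:
`(card - 1) V / A ≤ π` (sort them, or the intervals `[m V/A, (m+1) V/A)` contain at most one each). -/
def SPC_stmt : Prop := ∀ (ι : Type) (S : Finset ι) (u v : ι → ℂ) (A V : ℝ), 0 < A → 0 < V →
  (∀ i ∈ S, ‖u i‖ ^ 2 * ‖v i‖ ^ 2 ≤ A) →
  (∀ i ∈ S, ∀ j ∈ S, i ≠ j → V ≤ |((starRingEnd ℂ) (u i) * u j).im| * |((starRingEnd ℂ) (v i) * v j).im|) →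
  (S.card : ℝ) ≤ 1 + 4 * (A / V)

/-- **MUL** (medium; hypotheses POS, GDV, DEL, TRI, NZB, LAB, YDV, SPC, TID).  Points in one class, one type.
Proof. If `S` is empty: clear.  `o ∈ S`.  For `i ∈ S`, `i ≠ o`: `z_i` from DEL for `(o, i)`, `10 z_i = ι a_i + ι b_i w` (`co`).  For every prime `l ∣ f`, `l ∤ g`, the
label of `(a_i, b_i)` (LAB with `W = - w2 D₀`; the divisibility from YDV; `l ≠ 2, 5` because `D = D₀ f² ≡ 17 mod 20`): at most `36 ^ ω(f)` systems.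
Let `T` be the set of `i` with one system.  For `i ≠ j` in `T`: `z = z_ij` from DEL, `10 z = ι a + ι b w`; TRI: `g τz_i z_j = ι n_o z`, so (times 100, `ind`)
`g (a_i b_j - a_j b_i) = 10 n_o b`; `l ∣ a_i b_j - a_j b_i`, `l` coprime to `10 n_o` (YDV 1): `l ∣ b`, so `l^e ∣ b` (YDV 2) for the full power; so `f₁ = f1 f g`
divides `b`.  `b ≠ 0` (NZB).  So `|va b| |vb b| = |norm b| ≥ f₁²`.  SPC with `u_i = E1 z_i`, `v_i = E2 z_i`: `‖E1 z_i‖² = E1 (z τz) = va (n_o n_i) / g²`, the same for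
`E2` with `vb`, so `A = norm(n_o) D / g⁴` (POS, `norm n_i ≤ D`).  `conj(E1 z_i) E1 z_j = E1 (τz_i z_j) = va(n_o)/g · E1 z`, `Im E1 z = va(b) Im(E1 w)/10`,
`|Im E1 w| = √(va(w2) D₀)` (`E1 w` has square `- va(w2) D₀` and is purely imaginary), the same for `E2`: product
`V = norm(n_o)/g² · f₁² · √5 D₀ / 100` (`va(w2) vb(w2) = 5`; `E2 w² = E1 (σ w)² = - vb(w2) D₀`).  `A / V = 100 D / (√5 g² f₁² D₀) ≤ 45 (f / (g f₁))²`.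
So `#T ≤ 1 + 180 (f/(g f₁))²`, `#S ≤ 1 + 36^ω(f) #T`. -/
def MUL_stmt : Prop := ∀ (D₀ : ℤ) (F : Type) [Field F] [NumberField F] (C : Ctx D₀ F) (f g : ℕ), Squarefree D₀ → 0 < D₀ →
  ∀ S : Finset Pt, (∀ p ∈ S, IsPt p ∧ p.D = D₀ * (f : ℤ) ^ 2 ∧ ct p = g ∧ |p.n.norm| ≤ p.D) →
  (∀ p ∈ S, ∀ q ∈ S, p.k ∣ q.k → p.k = q.k) → (∀ p ∈ S, ∀ q ∈ S, SameT C f g p q ∧ Eqv C f p q) →
  (S.card : ℝ) ≤ 1 + 36 ^ f.primeFactors.card * (1 + 180 * ((f : ℝ) / (g * f1 f g)) ^ 2)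

/-- **TRV** (medium; hypotheses TID, LOC, VVM, VV5, POS).  The class of a good point is not trivial if `D₀` is large.
Proof. `β = γ⁵`.  `z = ν ν' / γ`: `z⁵ ν'² = (τθ)² σ³θ`; integral (`VV5 (1)`, LOC: `2 (c₃ + 2c₀) + (c₀ + 2c₁) = 5 c₀ + 2 (c₁ + c₃)`; `ct p = 1`).  `z τz = ι n` (`z5`).
`τz ≠ z`: otherwise `ρ = τθ / θ` has `ρ² σρ = 1`, so `ρ⁵ = 1` as in NZB, `θ = τθ`, `K f = 0` (`ind`), but `k ≠ 0`, `f ≠ 0` (`D > 0`).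
`10 z = ι a + ι b w`, `b ≠ 0`, `a² + b² w2 D₀ = 100 n`.  `va, vb`: `100 va n ≥ va(b)² va(w2) D₀`, the same for `vb`; product: `10⁴ norm n ≥ norm(b)² 5 D₀² ≥ 5 D₀²`. -/
def TRV_stmt : Prop := ∀ (D₀ : ℤ) (F : Type) [Field F] [NumberField F] (C : Ctx D₀ F) (p : Pt) (f : ℕ), 0 < D₀ → IsPt p →
  p.D = D₀ * (f : ℤ) ^ 2 → ct p = 1 → |p.n.norm| ≤ p.D → (∃ γ : F, (be C f p : F) = γ ^ 5) → D₀ ≤ 2000 * (f : ℤ) ^ 2

/-! ## Rows: counting -/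

/-- **TYP** (medium; hypotheses TID, VVM, POS).  The number of types.
Proof. `g > 0`.  The set `Q` of primes `P ∋ g` of `𝓞 F` has at most `4 ω(g)` elements (at most 4 primes above a prime number, degree 4; `P ∋ g` contains a prime
`l ∣ g`).  `C.σ` permutes `Q` and `vv P (σ x) = vv (σ⁻¹ P) x`, so the type is given by the values `vv P (θ)`, `vv P (ι n)`, `P ∈ Q`.  `2 ^ vv P x ≤ absNorm (x)`;
`absNorm(θ)² = absNorm(θ τθ) = absNorm(ι(n² n'))`, `absNorm (ι z) = |norm z|²`, so `absNorm θ = |norm n|³ ≤ N³`, `absNorm (ι n) = |norm n|² ≤ N²`: all values are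
at most `3 log₂ N`.  So there are at most `(3 log₂ N + 1)^(8 ω(g))` types. -/
def TYP_stmt : Prop := ∀ (D₀ : ℤ) (F : Type) [Field F] [NumberField F] (C : Ctx D₀ F) (f g : ℕ), Module.finrank ℚ F = 4 → 0 < g →
  ∀ (N B : ℝ), 2 ≤ N → 0 ≤ B → ∀ S : Finset Pt, (∀ p ∈ S, IsPt p ∧ p.D = D₀ * (f : ℤ) ^ 2 ∧ ct p = g ∧ |p.n.norm| ≤ p.D ∧ (p.D : ℝ) ≤ N) →
  (∀ T ⊆ S, (∀ p ∈ T, ∀ q ∈ T, SameT C f g p q) → (T.card : ℝ) ≤ B) →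
  (S.card : ℝ) ≤ (4 * Real.logb 2 N + 1) ^ (64 * g.primeFactors.card) * B

/-- **CLS** (medium; hypotheses RDA, REFL).  The number of classes.
Proof. `Eqv` is an equivalence relation on `S` (`β ≠ 0` for points).  `q ∈ S` fixed; a set `R ⊆ S` of representatives; the elements `β_p β_q⁴`, `p ∈ R`, are `Rad` (RDA), pairwise
different modulo fifth powers (`β_p β_q⁴ = β_p' β_q⁴ γ⁵` gives `Eqv p p'`), at most one of them is a fifth power; the others form a set `B` as in REFL,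
`#R ≤ #B + 1 ≤ h`.  Each class has at most `B` elements. -/
def CLS_stmt : Prop := ∀ (D₀ : ℤ) (F : Type) [Field F] [NumberField F] (C : Ctx D₀ F) (f g : ℕ), 1 < D₀ → Squarefree D₀ → D₀ ≠ 5 →
  (∃ r w : F, Mir D₀ F C.s r w) → ∀ (K : Type) [Field K] [NumberField K], Module.finrank ℚ K = 2 → (∃ x : K, x ^ 2 = D₀) →
  ∀ B : ℝ, 0 ≤ B → ∀ S : Finset Pt, (∀ p ∈ S, IsPt p ∧ p.D = D₀ * (f : ℤ) ^ 2 ∧ ct p = g) →
  (∀ p ∈ S, ∀ q ∈ S, SameT C f g p q) → (∀ T ⊆ S, (∀ p ∈ T, ∀ q ∈ T, Eqv C f p q) → (T.card : ℝ) ≤ B) →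
  (S.card : ℝ) ≤ (Nat.card {c : ClassGroup (𝓞 K) // c ^ 5 = 1} : ℝ) * B

/-- **CLG** (short to medium; hypotheses RDG, REFL).  The same for good points with a nontrivial class.
Proof. As CLS with the elements `β_p` (RDG), none of them a fifth power: `#R ≤ h - 1`. -/
def CLG_stmt : Prop := ∀ (D₀ : ℤ) (F : Type) [Field F] [NumberField F] (C : Ctx D₀ F) (f : ℕ), 1 < D₀ → Squarefree D₀ → D₀ ≠ 5 →
  (∃ r w : F, Mir D₀ F C.s r w) → ∀ (K : Type) [Field K] [NumberField K], Module.finrank ℚ K = 2 → (∃ x : K, x ^ 2 = D₀) →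
  ∀ B : ℝ, 0 ≤ B → ∀ S : Finset Pt, (∀ p ∈ S, IsPt p ∧ p.D = D₀ * (f : ℤ) ^ 2 ∧ ct p = 1 ∧ ¬ ∃ γ : F, (be C f p : F) = γ ^ 5) →
  (∀ T ⊆ S, (∀ p ∈ T, ∀ q ∈ T, Eqv C f p q) → (T.card : ℝ) ≤ B) →
  (S.card : ℝ) ≤ ((Nat.card {c : ClassGroup (𝓞 K) // c ^ 5 = 1} : ℝ) - 1) * B

/-- **CNT** (short; hypotheses MEX, CTX, GDV, TYP, CLS, MUL): OUTPUT 1 OF BLOCK B.
Proof. `F` from MEX, `C` from CTX, TYP with the bound of CLS with the bound of MUL (if `S` is not empty then `g = ct p > 0` by GDV). -/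
def CNT_stmt : Prop := ∀ (D₀ : ℤ) (f g : ℕ), 1 < D₀ → Squarefree D₀ → ¬ (5 : ℤ) ∣ D₀ →
  ∀ (K : Type) [Field K] [NumberField K], Module.finrank ℚ K = 2 → (∃ x : K, x ^ 2 = D₀) →
  ∀ N : ℝ, 2 ≤ N → ∀ S : Finset Pt,
  (∀ p ∈ S, IsPt p ∧ p.D = D₀ * (f : ℤ) ^ 2 ∧ ct p = g ∧ |p.n.norm| ≤ p.D ∧ (p.D : ℝ) ≤ N) →
  (∀ p ∈ S, ∀ q ∈ S, p.k ∣ q.k → p.k = q.k) →
  (S.card : ℝ) ≤ (4 * Real.logb 2 N + 1) ^ (64 * g.primeFactors.card) *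
    ((Nat.card {c : ClassGroup (𝓞 K) // c ^ 5 = 1} : ℝ) *
      (1 + 36 ^ f.primeFactors.card * (1 + 180 * ((f : ℝ) / (g * f1 f g)) ^ 2)))

/-- **CNG** (short; hypotheses MEX, CTX, TRV, CLG, MUL): OUTPUT 2 OF BLOCK B, good points, `D₀` large compared with `f`.
Proof. `SameT` is empty for `g = 1`; `f1 f 1 = f` (`f > 0` because `D > 0`), so the bound of MUL is `1 + 36^ω 181`.  No class is trivial (TRV). -/
def CNG_stmt : Prop := ∀ (D₀ : ℤ) (f : ℕ), 1 < D₀ → Squarefree D₀ → ¬ (5 : ℤ) ∣ D₀ → 2000 * (f : ℤ) ^ 2 < D₀ →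
  ∀ (K : Type) [Field K] [NumberField K], Module.finrank ℚ K = 2 → (∃ x : K, x ^ 2 = D₀) → ∀ S : Finset Pt,
  (∀ p ∈ S, IsPt p ∧ p.D = D₀ * (f : ℤ) ^ 2 ∧ ct p = 1 ∧ |p.n.norm| ≤ p.D) →
  (∀ p ∈ S, ∀ q ∈ S, p.k ∣ q.k → p.k = q.k) →
  (S.card : ℝ) ≤ ((Nat.card {c : ClassGroup (𝓞 K) // c ^ 5 = 1} : ℝ) - 1) * (1 + 181 * 36 ^ f.primeFactors.card)

end Pool.Agent.RF
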